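import Pool.Agent.K7.H41.NC.Enc

set_option autoImplicit false

/-!
Linear orders with noncrossing coloured edges are recovered from their tree sums; Vaught's
conjecture.
-/

namespace Pool.Agent.K7.H41.NC

open Pool.Agent.H533R2.VO (RS RIso)
open Pool.Agent.H533R2.VS
open Pool.Agent.TH425.FF
open Pool.Agent.W875.TS (p3 IsTree ts_tree ts_ctree ts_itree)

section facts

variable {x : RS ar} {u v w a b c d a' b' z k : ℕ}

theorem Nc.node (_h : Nc x) (huv : u ≠ v) (hab : Ad x a b) (hM : Mn x u v a b) (z : ℕ) :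
    ¬ DD x u v z ↔ Bt x a b z := by
  constructor
  · intro h1
    by_contra h2
    exact h1 (Or.inr ⟨a, b, hab, hM.1, h2⟩)
  · rintro h1 (⟨rfl, -⟩ | ⟨a', b', k1, ⟨k2, k3⟩, k4⟩)
    · exact huv rfl
    · exact k4 (hM.2 a' b' k1 k2 k3 z h1)

theorem Nc.bt_inj (h : Nc x) (hab : Lt x a b) (hab' : Lt x a' b')
    (he : ∀ z, Bt x a b z ↔ Bt x a' b' z) : a = a' ∧ b = b' := by
  have h1 := (he a).1 ⟨Or.inl rfl, hab⟩
  have h2 := (he a').2 ⟨Or.inl rfl, hab'⟩
  have haa : a = a' := by
    rcases h1.1 with e | h3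
    · exact e.symm
    · rcases h2.1 with e | h4
      · exact e
      · exact absurd h3 (h.asymm h4)
  subst haa
  refine ⟨rfl, ?_⟩
  rcases h.tri b b' with h3 | h3 | h3
  · exact absurd ((he b).2 ⟨Or.inr hab, h3⟩).2 (h.irr _)
  · exact h3
  · exact absurd ((he b').1 ⟨Or.inr hab', h3⟩).2 (h.irr _)

/-- Limits. -/
def CX (x : RS ar) (a b : ℕ) : Prop := Lt x a b ∧
  ∀ z, Bt x a b z → ∃ w, Lt x z w ∧ Lt x w b ∧ DD x a z w

theorem Nc.lim_cx (h : Nc x) (hL : Lim x a b) : CX x a b := by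
  refine ⟨hL.1, fun z hz => ?_⟩
  obtain ⟨b', h1, h2, h3⟩ := hL.2 z hz
  exact ⟨b', h1, h2, Or.inr ⟨a, b', h3, ⟨⟨Or.inl rfl, h.ad_lt h3⟩, hz.1, h1⟩,
    fun h4 => h.irr _ h4.2⟩⟩

theorem Nc.not_cx (h : Nc x) (hab : Ad x a b) (ha : Lt x a' a) : ¬ CX x a' b := by
  rintro ⟨-, h1⟩
  obtain ⟨w, h2, h3, h4⟩ := h1 a ⟨Or.inr ha, h.ad_lt hab⟩
  rcases h4 with ⟨rfl, -⟩ | ⟨c, d, k1, ⟨k2, k3⟩, k4⟩
  · exact h.irr _ ha
  · have hca : Lt x c a := by
      rcases k2.1 with rfl | h5
      · exact ha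
      · exact h.trans _ _ _ h5 ha
    have hdb : Lt x d b := by
      rcases h.tri w d with h5 | rfl | h5
      · exact absurd ⟨Or.inr (h.trans _ _ _ hca h2), h5⟩ k4
      · exact h3
      · exact h.trans _ _ _ h5 h3
    exact h.nc c a d b hca k3.2 hdb k1 hab

theorem enc_D (p : List ℕ) (x : RS ar) (u v w : ℕ) : Dd (enc p x) u v w ↔ DD x u v w :=
  mk_D u v w

theorem enc_R (p : List ℕ) (x : RS ar) (n u v : ℕ) : Rr (enc p x) n u v ↔ RR x n u v :=
  mk_R n u v

theorem enc_L (p : List ℕ) (x : RS ar) (u v : ℕ) : Lt (enc p x) u v ↔ Lt x u v :=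
  mk_R 0 u v

theorem enc_B (p : List ℕ) (x : RS ar) (a b u : ℕ) : Bt (enc p x) a b u ↔ Bt x a b u := by
  unfold Bt
  rw [enc_L, enc_L]

theorem enc_C (p : List ℕ) (x : RS ar) (a b : ℕ) : CC (enc p x) a b ↔ CX x a b := by
  unfold CC CX
  simp only [enc_L, enc_B, enc_D]

theorem enc_S (p : List ℕ) (x : RS ar) (a b : ℕ) : Sc (enc p x) a b ↔ Sc x a b := by
  unfold Sc
  simp only [enc_L]

theorem enc_odd (p : List ℕ) (x : RS ar) (k u v : ℕ) :
    Rr (enc p x) (2 * k + 1) u v ↔ (u = v ∧ Qk x k u) ∨ Lam x k u v := by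
  rw [enc_R]
  show ((2 * k) % 2 = 0 ∧ ((u = v ∧ Qk x (2 * k / 2) u) ∨ Lam x (2 * k / 2) u v)) ∨
    ((2 * k) % 2 ≠ 0 ∧ u = v ∧ Wk x (2 * k / 2) u) ↔ _
  have h1 : 2 * k % 2 = 0 := by omega
  have h2 : 2 * k / 2 = k := by omega
  rw [h2]
  simp only [h1, true_and, ne_eq, not_true_eq_false, false_and, or_false]

theorem enc_w (p : List ℕ) (x : RS ar) (k u v : ℕ) :
    Rr (enc p x) (2 * k + 2) u v ↔ (u = v ∧ Wk x k u) := by
  rw [enc_R]
  show ((2 * k + 1) % 2 = 0 ∧ ((u = v ∧ Qk x ((2 * k + 1) / 2) u) ∨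
    Lam x ((2 * k + 1) / 2) u v)) ∨ ((2 * k + 1) % 2 ≠ 0 ∧ u = v ∧ Wk x ((2 * k + 1) / 2) u) ↔ _
  have h1 : ¬ (2 * k + 1) % 2 = 0 := by omega
  have h2 : (2 * k + 1) / 2 = k := by omega
  rw [h2]
  simp only [h1, false_and, ne_eq, not_false_eq_true, true_and, false_or]

theorem enc_even (p : List ℕ) (x : RS ar) (k u v : ℕ) :
    Rr (enc p x) (4 * k + 2) u v ↔ (u = v ∧ Pk x k u) := by
  rw [show 4 * k + 2 = 2 * (2 * k) + 2 by ring, enc_w]
  unfold Wk
  have h1 : (2 * k) % 2 = 0 := by omega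
  have h2 : (2 * k) / 2 = k := by omega
  rw [h2]
  simp only [h1, true_and, ne_eq, not_true_eq_false, false_and, or_false]

theorem enc_un (p : List ℕ) (x : RS ar) (k u v : ℕ) :
    Rr (enc p x) (4 * k + 4) u v ↔ (u = v ∧ Un x k u) := by
  rw [show 4 * k + 4 = 2 * (2 * k + 1) + 2 by ring, enc_w]
  unfold Wk
  have h1 : ¬ (2 * k + 1) % 2 = 0 := by omega
  have h2 : (2 * k + 1) / 2 = k := by omega
  rw [h2]
  simp only [h1, false_and, ne_eq, not_false_eq_true, true_and, false_or]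

theorem Nc.ee (h : Nc x) (p : List ℕ) (k a b : ℕ) : EE (enc p x) k a b ↔ Ed x k a b := by
  unfold EE
  simp only [enc_L, enc_B, enc_D, enc_C, enc_S, enc_odd, enc_even, true_and]
  constructor
  · rintro (⟨⟨b1, h1, h2⟩, h3⟩ | ⟨w, ⟨h1, h2⟩, h3, h4⟩ | ⟨h1, h2, h3⟩)
    · have hb : b1 = b := by
        rcases h.tri b b1 with h4 | h4 | h4
        · exact absurd h4 (h2.2 b h3.1)
        · exact h4.symm
        · exact absurd h4 (h3.2 b1 h2.1)
      rw [← hb]
      exact h1
    · have hne : a ≠ w := h.ne h1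
      rcases h3 with ⟨e, -⟩ | ⟨-, a1, b1, h5, h6⟩
      · exact absurd e hne
      · have h7 : ∀ z, Bt x a1 b1 z ↔ Bt x a b z := fun z => by
          rw [← h4, h.node hne ⟨k, h5⟩ h6]
        obtain ⟨rfl, rfl⟩ := h.bt_inj (h.sub k _ _ h5) (h.trans _ _ _ h1 h2) h7
        exact h5
    · rcases h1 with ⟨a0, h4, h5⟩ | h1
      · have ha : a0 = a := by
          rcases h.tri a0 a with h6 | h6 | h6
          · exact absurd (h.lim_cx h5) (h3 a0 h6)
          · exact h6
          · exact absurd h2 (h.not_cx ⟨k, h4⟩ h6)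
        rw [← ha]
        exact h4
      · exact absurd rfl h1.1
  · intro hE
    have hab := h.sub k _ _ hE
    by_cases hL : Lim x a b
    · right; right
      exact ⟨Or.inl ⟨a, hE, hL⟩, h.lim_cx hL, fun a' ha' => h.not_cx ⟨k, hE⟩ ha'⟩
    · by_cases hS : Sc x a b
      · left
        exact ⟨⟨b, hE, hS⟩, hS⟩
      · right; left
        have h1 : ∃ z, Bt x a b z ∧ ∀ b', Lt x z b' → Lt x b' b → ¬ Ad x a b' := by
          by_contra hc
          push Not at hc
          exact hL ⟨hab, hc⟩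
        have h2 : ∃ w, Lt x a w ∧ Lt x w b := by
          by_contra hc
          push Not at hc
          exact hS ⟨hab, hc⟩
        obtain ⟨w, hw1, hw2, hw3⟩ : ∃ w, Lt x a w ∧ Lt x w b ∧
            ∀ b', Lt x w b' → Lt x b' b → ¬ Ad x a b' := by
          obtain ⟨z, hz, hz'⟩ := h1
          rcases hz.1 with e | h3
          · obtain ⟨w, hw1, hw2⟩ := h2
            subst e
            exact ⟨w, hw1, hw2, fun b' k1 k2 => hz' b' (h.trans _ _ _ hw1 k1) k2⟩
          · exact ⟨z, h3, hz.2, hz'⟩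
        have hM : Mn x a w a b := by
          refine ⟨⟨⟨Or.inl rfl, hab⟩, Or.inr hw1, hw2⟩, fun a' b' k1 k2 k3 z hz => ?_⟩
          have hbb : ¬ Lt x b' b := by
            intro k4
            rcases k2.1 with e | k5
            · subst e
              exact hw3 b' k3.2 k4 k1
            · exact h.nc a' a b' b k5 k2.2 k4 k1 ⟨k, hE⟩
          refine ⟨?_, ?_⟩
          · rcases k2.1 with rfl | k5
            · exact hz.1
            · rcases hz.1 with rfl | k6
              · exact Or.inr k5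
              · exact Or.inr (h.trans _ _ _ k5 k6)
          · rcases h.tri b b' with k6 | rfl | k6
            · exact h.trans _ _ _ hz.2 k6
            · exact hz.2
            · exact absurd k6 hbb
        exact ⟨w, ⟨hw1, hw2⟩, Or.inr ⟨h.ne hw1, a, b, hE, hM⟩,
          fun z => h.node (h.ne hw1) ⟨k, hE⟩ hM z⟩

theorem Nc.dec_enc (h : Nc x) (p : List ℕ) : dec p (enc p x) = x := by
  refine ext (fun u v w => (mk_D u v w).trans (iff_of_false id (h.d0 u v w))) fun n u v => ?_
  refine (mk_R n u v).trans ?_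
  cases n with
  | zero => exact enc_L p x u v
  | succ n =>
    show (n % 2 = 0 ∧ EE (enc p x) (n / 2) u v) ∨
      (n % 2 ≠ 0 ∧ u = v ∧ Rr (enc p x) (4 * (n / 2) + 4) u u) ↔ Rr x (n + 1) u v
    rw [h.ee, enc_un]
    by_cases hn : n % 2 = 0
    · have h1 : n + 1 = 2 * (n / 2) + 1 := by omega
      simp only [hn, true_and, ne_eq, not_true_eq_false, false_and, or_false]
      unfold Ed
      rw [← h1]
    · have h1 : n + 1 = 2 * (n / 2) + 2 := by omega
      simp only [hn, false_and, ne_eq, not_false_eq_true, true_and, false_or]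
      unfold Un
      rw [← h1]
      constructor
      · rintro ⟨rfl, h2⟩
        exact h2
      · intro h2
        have h3 := h.un (n / 2) u v (h1 ▸ h2)
        subst h3
        exact ⟨rfl, h2⟩

end facts

/-! ### Relabelling and measurability -/

section canon

variable (σ : Equiv.Perm ℕ) (x : RS ar)

theorem e_L (u v : ℕ) : Lt (act σ x) (σ u) (σ v) ↔ Lt x u v := act_R σ x 0 u v

theorem e_A (u v : ℕ) : Ad (act σ x) (σ u) (σ v) ↔ Ad x u v :=
  exists_congr fun k => act_R σ x (2 * k + 1) u v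

theorem e_B (a b u : ℕ) : Bt (act σ x) (σ a) (σ b) (σ u) ↔ Bt x a b u :=
  and_congr (or_congr σ.injective.eq_iff (e_L σ x a u)) (e_L σ x u b)

theorem e_DD (u v w : ℕ) : DD (act σ x) (σ u) (σ v) (σ w) ↔ DD x u v w :=
  or_congr (and_congr σ.injective.eq_iff (not_congr σ.injective.eq_iff))
    (eex σ fun a => eex σ fun b => and_congr (e_A σ x a b)
      (and_congr (and_congr (e_B σ x a b u) (e_B σ x a b v)) (not_congr (e_B σ x a b w))))

theorem e_Mn (u v a b : ℕ) : Mn (act σ x) (σ u) (σ v) (σ a) (σ b) ↔ Mn x u v a b :=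
  and_congr (and_congr (e_B σ x a b u) (e_B σ x a b v)) (eall σ fun a' => eall σ fun b' =>
    imp_congr (e_A σ x a' b') (imp_congr (e_B σ x a' b' u) (imp_congr (e_B σ x a' b' v)
      (eall σ fun z => imp_congr (e_B σ x a b z) (e_B σ x a' b' z)))))

theorem e_Lam (k u v : ℕ) : Lam (act σ x) k (σ u) (σ v) ↔ Lam x k u v :=
  and_congr (not_congr σ.injective.eq_iff) (eex σ fun a => eex σ fun b =>
    and_congr (act_R σ x (2 * k + 1) a b) (e_Mn σ x u v a b))

theorem e_Lim (a b : ℕ) : Lim (act σ x) (σ a) (σ b) ↔ Lim x a b :=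
  and_congr (e_L σ x a b) (eall σ fun z => imp_congr (e_B σ x a b z) (eex σ fun b' =>
    and_congr (e_L σ x z b') (and_congr (e_L σ x b' b) (e_A σ x a b'))))

theorem e_Qk (k b : ℕ) : Qk (act σ x) k (σ b) ↔ Qk x k b :=
  eex σ fun a => and_congr (act_R σ x (2 * k + 1) a b) (e_Lim σ x a b)

theorem e_Sc (a b : ℕ) : Sc (act σ x) (σ a) (σ b) ↔ Sc x a b :=
  and_congr (e_L σ x a b) (eall σ fun z => imp_congr (e_L σ x a z) (not_congr (e_L σ x z b)))

theorem e_Pk (k a : ℕ) : Pk (act σ x) k (σ a) ↔ Pk x k a :=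
  eex σ fun b => and_congr (act_R σ x (2 * k + 1) a b) (e_Sc σ x a b)

theorem e_Wk (k a : ℕ) : Wk (act σ x) k (σ a) ↔ Wk x k a :=
  or_congr (and_congr Iff.rfl (e_Pk σ x _ a)) (and_congr Iff.rfl (act_R σ x _ a a))

theorem e_RR (n u v : ℕ) : RR (act σ x) n (σ u) (σ v) ↔ RR x n u v := by
  cases n with
  | zero => exact e_L σ x u v
  | succ n =>
    exact or_congr (and_congr Iff.rfl (or_congr (and_congr σ.injective.eq_iff (e_Qk σ x _ u))
      (e_Lam σ x _ u v))) (and_congr Iff.rfl (and_congr σ.injective.eq_iff (e_Wk σ x _ u)))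

theorem e_CC (a b : ℕ) : CC (act σ x) (σ a) (σ b) ↔ CC x a b :=
  and_congr (e_L σ x a b) (eall σ fun z => imp_congr (e_B σ x a b z) (eex σ fun w =>
    and_congr (e_L σ x z w) (and_congr (e_L σ x w b) (act_D σ x a z w))))

theorem e_EE (k a b : ℕ) : EE (act σ x) k (σ a) (σ b) ↔ EE x k a b :=
  or_congr (and_congr (act_R σ x _ a a) (e_Sc σ x a b)) (or_congr
    (eex σ fun w => and_congr (and_congr (e_L σ x a w) (e_L σ x w b))
      (and_congr (act_R σ x _ a w) (eall σ fun z =>
        iff_congr (not_congr (act_D σ x a w z)) (e_B σ x a b z))))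
    (and_congr (act_R σ x _ b b) (and_congr (e_CC σ x a b) (eall σ fun a' =>
      imp_congr (e_L σ x a' a) (not_congr (e_CC σ x a' b))))))

theorem e_SS (n u v : ℕ) : SS (act σ x) n (σ u) (σ v) ↔ SS x n u v := by
  cases n with
  | zero => exact e_L σ x u v
  | succ n =>
    exact or_congr (and_congr Iff.rfl (e_EE σ x _ u v)) (and_congr Iff.rfl
      (and_congr σ.injective.eq_iff (act_R σ x _ u u)))

end canon

section meas

theorem q_L (u v : ℕ) : Measurable fun x : RS ar => Lt x u v := m_R 0 u v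

theorem q_A (u v : ℕ) : Measurable fun x : RS ar => Ad x u v :=
  Measurable.exists fun k => m_R (2 * k + 1) u v

theorem q_B (a b u : ℕ) : Measurable fun x : RS ar => Bt x a b u :=
  (measurable_const.or (q_L a u)).and (q_L u b)

theorem q_DD (u v w : ℕ) : Measurable fun x : RS ar => DD x u v w :=
  measurable_const.or (Measurable.exists fun a => Measurable.exists fun b =>
    (q_A a b).and (((q_B a b u).and (q_B a b v)).and (q_B a b w).not))

theorem q_Mn (u v a b : ℕ) : Measurable fun x : RS ar => Mn x u v a b :=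
  ((q_B a b u).and (q_B a b v)).and (Measurable.forall fun a' => Measurable.forall fun b' =>
    (q_A a' b').imp ((q_B a' b' u).imp ((q_B a' b' v).imp (Measurable.forall fun z =>
      (q_B a b z).imp (q_B a' b' z)))))

theorem q_Lam (k u v : ℕ) : Measurable fun x : RS ar => Lam x k u v :=
  measurable_const.and (Measurable.exists fun a => Measurable.exists fun b =>
    (m_R (2 * k + 1) a b).and (q_Mn u v a b))

theorem q_Lim (a b : ℕ) : Measurable fun x : RS ar => Lim x a b :=
  (q_L a b).and (Measurable.forall fun z => (q_B a b z).imp (Measurable.exists fun b' =>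
    (q_L z b').and ((q_L b' b).and (q_A a b'))))

theorem q_Qk (k b : ℕ) : Measurable fun x : RS ar => Qk x k b :=
  Measurable.exists fun a => (m_R (2 * k + 1) a b).and (q_Lim a b)

theorem q_Sc (a b : ℕ) : Measurable fun x : RS ar => Sc x a b :=
  (q_L a b).and (Measurable.forall fun z => (q_L a z).imp (q_L z b).not)

theorem q_Pk (k a : ℕ) : Measurable fun x : RS ar => Pk x k a :=
  Measurable.exists fun b => (m_R (2 * k + 1) a b).and (q_Sc a b)

theorem q_Wk (k a : ℕ) : Measurable fun x : RS ar => Wk x k a :=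
  (measurable_const.and (q_Pk _ a)).or (measurable_const.and (m_R _ a a))

theorem q_RR (n u v : ℕ) : Measurable fun x : RS ar => RR x n u v := by
  cases n with
  | zero => exact q_L u v
  | succ n =>
    exact (measurable_const.and ((measurable_const.and (q_Qk _ u)).or (q_Lam _ u v))).or
      (measurable_const.and (measurable_const.and (q_Wk _ u)))

theorem q_CC (a b : ℕ) : Measurable fun x : RS ar => CC x a b :=
  (q_L a b).and (Measurable.forall fun z => (q_B a b z).imp (Measurable.exists fun w =>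
    (q_L z w).and ((q_L w b).and (m_D a z w))))

theorem q_EE (k a b : ℕ) : Measurable fun x : RS ar => EE x k a b :=
  ((m_R _ a a).and (q_Sc a b)).or ((Measurable.exists fun w => ((q_L a w).and (q_L w b)).and
    ((m_R _ a w).and (Measurable.forall fun z => ((m_D a w z).not).iff (q_B a b z)))).or
    ((m_R _ b b).and ((q_CC a b).and (Measurable.forall fun a' =>
      (q_L a' a).imp (q_CC a' b).not))))

theorem q_SS (n u v : ℕ) : Measurable fun x : RS ar => SS x n u v := by
  cases n with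
  | zero => exact q_L u v
  | succ n =>
    exact (measurable_const.and (q_EE _ u v)).or
      (measurable_const.and (measurable_const.and (m_R _ u u)))

end meas

theorem pcn : PCanon enc dec where
  meas _ := m_mk q_DD q_RR
  dmeas _ := m_mk (fun _ _ _ => measurable_const) q_SS
  cact σ _ x := act_mk σ (e_DD σ x) (e_RR σ x)
  dact σ _ z := act_mk σ (fun _ _ _ => Iff.rfl) (e_SS σ z)

/-- The three properties. -/
structure Ok {a : ℕ → ℕ} (V : RS a → Prop) : Prop where
  vc : VCu V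
  co : Coan V
  iv : Inv V

theorem Ok.pexp {a b : ℕ → ℕ} {V : RS b → Prop} (h : Ok V) {c : List ℕ → RS a → RS b}
    {d : List ℕ → RS b → RS a} (hcd : PCanon c d) : Ok (PExp c d V) :=
  ⟨pexp_vcu hcd h.vc h.co h.iv, pexp_coan hcd h.co, pexp_inv hcd h.iv⟩

/-- The class of the codes. -/
def KN : RS ar → Prop := PExp enc dec (IsTree 0 DecG)

theorem ok_KN : Ok KN := by
  have h1 : VCu (DecG : RS ar → Prop) := vs_dec ar
  have h2 := (vs_kde ar).1
  have h3 : Ok (IsTree 0 (DecG : RS ar → Prop)) :=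
    ⟨ts_tree ar ar_pos 0 rfl _ h1, ts_ctree ar 0 _ h2, ts_itree ar 0 _⟩
  exact h3.pexp pcn

theorem nc_KN {x : RS ar} (h : Nc x) : KN x := ⟨[], h.isTree [], h.dec_enc []⟩

end Pool.Agent.K7.H41.NC
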