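import Mathlib

set_option autoImplicit false

/-!
Families of subsets of a linear order, and the unions of their classes of crossing sets.
-/

namespace Pool.Agent.K7.H41.NC

section defs

variable {α ι : Type} (lt : α → α → Prop) (S : ι → Set α) (Tr : ι → Prop)

/-- The sets cross. -/
def Crs (A B : Set α) : Prop := ∃ p q r s, (lt p q ∧ lt q r ∧ lt r s) ∧
  (((p ∈ A ∧ r ∈ A) ∧ (q ∈ B ∧ s ∈ B)) ∨ ((p ∈ B ∧ r ∈ B) ∧ (q ∈ A ∧ s ∈ A)))

/-- Linked sets. -/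
def Rl (i j : ι) : Prop := (Tr i ∧ Tr j) ∧ (Crs lt (S i) (S j) ∨ ∀ u, u ∈ S i ↔ u ∈ S j)

/-- Chains of linked sets. -/
def Itr : ℕ → ι → ι → Prop
  | 0, i, j => i = j
  | n + 1, i, j => ∃ k, Itr n i k ∧ Rl lt S Tr k j

/-- Sets in one class. -/
def Lk (i j : ι) : Prop := ∃ n, Itr lt S Tr n i j

/-- The points of the class of `i`. -/
def Pt (i : ι) (u : α) : Prop := ∃ j, Lk lt S Tr i j ∧ u ∈ S j

/-- Consecutive points of the class of `i`. -/
def Gp (i : ι) (u v : α) : Prop := (Pt lt S Tr i u ∧ Pt lt S Tr i v) ∧ lt u v ∧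
  ∀ w, Pt lt S Tr i w → ¬ (lt u w ∧ lt w v)

/-- Consecutive points of a class, the first one is not the least point of the class. -/
def Nx (v w : α) : Prop := ∃ i, Tr i ∧ Gp lt S Tr i v w ∧ ∃ z, Pt lt S Tr i z ∧ lt z v

end defs

section steps

variable {α : Type} (N : α → α → Prop)

/-- Several steps. -/
def Stp : ℕ → α → α → Prop
  | 0, v, w => w = v
  | n + 1, v, w => ∃ v', N v v' ∧ Stp n v' w

/-- The position `n` after `u`, `v`. -/
def Pos (u v : α) : ℕ → α → Prop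
  | 0, w => w = u
  | n + 1, w => Stp N n v w

end steps

/-- The order. -/
abbrev l0 {α : Type} [LinearOrder α] (a b : α) : Prop := a < b

section facts

variable {α ι : Type} [LinearOrder α] {S : ι → Set α} {Tr : ι → Prop} {i j k : ι}
  {p q u v w z t u' v' w' z' t' : α}

theorem Crs.symm {A B : Set α} (h : Crs l0 A B) : Crs l0 B A := by
  obtain ⟨p, q, r, s, h1, h2 | h2⟩ := h
  · exact ⟨p, q, r, s, h1, Or.inr h2⟩
  · exact ⟨p, q, r, s, h1, Or.inl h2⟩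

theorem Rl.symm (h : Rl l0 S Tr i j) : Rl l0 S Tr j i :=
  ⟨⟨h.1.2, h.1.1⟩, h.2.imp (fun h1 => h1.symm) fun h1 u => (h1 u).symm⟩

theorem lk_refl (i : ι) : Lk l0 S Tr i i := ⟨0, rfl⟩

theorem Lk.tail (h : Lk l0 S Tr i j) (h1 : Rl l0 S Tr j k) : Lk l0 S Tr i k := by
  obtain ⟨n, hn⟩ := h
  exact ⟨n + 1, j, hn, h1⟩

theorem lk_ind {P : ι → Prop} (h0 : P i) (h1 : ∀ j k, Lk l0 S Tr i j → P j → Rl l0 S Tr j k → P k)
    (h : Lk l0 S Tr i j) : P j := by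
  obtain ⟨n, hn⟩ := h
  induction n generalizing j with
  | zero => exact hn ▸ h0
  | succ n ih =>
    obtain ⟨k, hk, h2⟩ := hn
    exact h1 k j ⟨n, hk⟩ (ih hk) h2

theorem Lk.trans (h : Lk l0 S Tr i j) (h' : Lk l0 S Tr j k) : Lk l0 S Tr i k :=
  lk_ind (P := fun k => Lk l0 S Tr i k) h (fun _ _ _ h1 h2 => h1.tail h2) h'

theorem Lk.symm (h : Lk l0 S Tr i j) : Lk l0 S Tr j i :=
  lk_ind (P := fun k => Lk l0 S Tr k i) (lk_refl i)
    (fun _ _ _ h1 h2 => ((lk_refl _).tail h2.symm).trans h1) h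

theorem Lk.tr (h : Lk l0 S Tr i j) (hi : Tr i) : Tr j :=
  lk_ind (P := Tr) hi (fun _ _ _ _ h2 => h2.1.2) h

theorem Lk.pt (h : Lk l0 S Tr i j) (hu : Pt l0 S Tr i u) : Pt l0 S Tr j u := by
  obtain ⟨k, h1, h2⟩ := hu
  exact ⟨k, h.symm.trans h1, h2⟩

theorem pt_self (h : u ∈ S i) : Pt l0 S Tr i u := ⟨i, lk_refl i, h⟩

/-- `P` is contained in `[p, q]`, or has no point between `p` and `q`. -/
def Ns (P : α → Prop) (p q : α) : Prop := (∀ u, P u → p ≤ u ∧ u ≤ q) ∨ ∀ u, P u → ¬ (p < u ∧ u < q)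

theorem z_lem (h : ∀ j, Lk l0 S Tr i j → Ns (· ∈ S j) p q) : Ns (Pt l0 S Tr i) p q := by
  rcases h i (lk_refl i) with h0 | h0
  · left
    have key : ∀ j, Lk l0 S Tr i j → ∀ u, u ∈ S j → p ≤ u ∧ u ≤ q := fun j hj =>
      lk_ind (P := fun j => ∀ u, u ∈ S j → p ≤ u ∧ u ≤ q) h0 (fun j k hj h1 h2 => by
        rcases h k (hj.tail h2) with h3 | h3
        · exact h3
        · rcases h2.2 with ⟨a, b, c, d, ⟨k1, k2, k3⟩, ⟨⟨k4, k5⟩, k6, k7⟩ | ⟨⟨k4, k5⟩, k6, k7⟩⟩ | h4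
          · exact absurd ⟨lt_of_le_of_lt (h1 a k4).1 k1, lt_of_lt_of_le k2 (h1 c k5).2⟩ (h3 b k6)
          · exact absurd ⟨lt_of_le_of_lt (h1 b k6).1 k2, lt_of_lt_of_le k3 (h1 d k7).2⟩ (h3 c k5)
          · exact fun u hu => h1 u ((h4 u).2 hu)) hj
    rintro u ⟨j, hj, hu⟩
    exact key j hj u hu
  · right
    have key : ∀ j, Lk l0 S Tr i j → ∀ u, u ∈ S j → ¬ (p < u ∧ u < q) := fun j hj =>
      lk_ind (P := fun j => ∀ u, u ∈ S j → ¬ (p < u ∧ u < q)) h0 (fun j k hj h1 h2 => by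
        rcases h k (hj.tail h2) with h3 | h3
        · rcases h2.2 with ⟨a, b, c, d, ⟨k1, k2, k3⟩, ⟨⟨k4, k5⟩, k6, k7⟩ | ⟨⟨k4, k5⟩, k6, k7⟩⟩ | h4
          · exact absurd ⟨lt_of_le_of_lt (h3 b k6).1 k2, lt_of_lt_of_le k3 (h3 d k7).2⟩ (h1 c k5)
          · exact absurd ⟨lt_of_le_of_lt (h3 a k4).1 k1, lt_of_lt_of_le k2 (h3 c k5).2⟩ (h1 b k6)
          · exact fun u hu => h1 u ((h4 u).2 hu)
        · exact h3) hj
    rintro u ⟨j, hj, hu⟩
    exact key j hj u hu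

theorem ns_of {P : α → Prop} (h : ∀ a b, P a → P b → p < a → a < q → (b < p ∨ q < b) → False) :
    Ns P p q := by
  by_cases h1 : ∃ a, P a ∧ p < a ∧ a < q
  · obtain ⟨a, h2, h3, h4⟩ := h1
    left
    intro u hu
    constructor
    · by_contra hc
      exact h a u h2 hu h3 h4 (Or.inl (not_le.1 hc))
    · by_contra hc
      exact h a u h2 hu h3 h4 (Or.inr (not_le.1 hc))
  · right
    exact fun u hu h2 => h1 ⟨u, hu, h2⟩

theorem x_lem (hn : ¬ Lk l0 S Tr i j) (hi : Tr i) (hj : Tr j) (hp : p ∈ S j) (hq : q ∈ S j) :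
    Ns (Pt l0 S Tr i) p q := by
  refine z_lem fun k hk => ns_of fun a b ha hb h1 h2 h3 => hn ?_
  refine hk.tail ⟨⟨hk.tr hi, hj⟩, Or.inl ?_⟩
  rcases h3 with h3 | h3
  · exact ⟨b, p, a, q, ⟨h3, h1, h2⟩, Or.inl ⟨⟨hb, ha⟩, hp, hq⟩⟩
  · exact ⟨p, a, q, b, ⟨h1, h2, h3⟩, Or.inr ⟨⟨hp, hq⟩, ha, hb⟩⟩

theorem y_lem (hn : ¬ Lk l0 S Tr i j) (hi : Tr i) (hj : Tr j) (hp : Pt l0 S Tr i p)
    (hq : Pt l0 S Tr i q) : Ns (Pt l0 S Tr j) p q := by
  refine z_lem fun k hk => ns_of fun a b ha hb h1 h2 h3 => ?_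
  have hn' : ¬ Lk l0 S Tr i k := fun h => hn (h.trans hk.symm)
  have hk' := hk.tr hj
  rcases h3 with h3 | h3
  · rcases x_lem hn' hi hk' hb ha with h4 | h4
    · exact absurd (h4 q hq).2 (not_le.2 h2)
    · exact h4 p hp ⟨h3, h1⟩
  · rcases x_lem hn' hi hk' ha hb with h4 | h4
    · exact absurd (h4 p hp).1 (not_le.2 h1)
    · exact h4 q hq ⟨h2, h3⟩

/-- Pairs of consecutive points do not cross. -/
theorem gp_nc (hi : Tr i) (hj : Tr j) (h1 : Gp l0 S Tr i p q) (h2 : Gp l0 S Tr j u v)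
    (h3 : p < u) (h4 : u < q) (h5 : q < v) : False := by
  by_cases hn : Lk l0 S Tr i j
  · exact h1.2.2 u (hn.symm.pt h2.1.1) ⟨h3, h4⟩
  · rcases y_lem hn hi hj h1.1.1 h1.1.2 with h6 | h6
    · exact absurd (h6 v h2.1.2).2 (not_le.2 h5)
    · exact h6 u h2.1.1 ⟨h3, h4⟩

theorem lo_eq (hn : ¬ Lk l0 S Tr i j) (hi : Tr i) (hj : Tr j) (hv : Pt l0 S Tr i v)
    (hv' : Pt l0 S Tr j v) (hw : Pt l0 S Tr i w) (hvw : v < w) (hw' : Pt l0 S Tr j w')
    (hvw' : v < w') (hz : Pt l0 S Tr i z) (hzv : z < v) (hz' : Pt l0 S Tr j z') (hzv' : z' < v) :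
    z = z' := by
  rcases lt_trichotomy z z' with h | h | h
  · rcases y_lem hn hi hj hz hv with h1 | h1
    · exact absurd (h1 w' hw').2 (not_le.2 hvw')
    · exact absurd ⟨h, hzv'⟩ (h1 z' hz')
  · exact h
  · rcases y_lem hn hi hj hz hw with h1 | h1
    · exact absurd (h1 z' hz').1 (not_le.2 h)
    · exact absurd ⟨hzv, hvw⟩ (h1 v hv')

theorem hi_eq (hn : ¬ Lk l0 S Tr i j) (hi : Tr i) (hj : Tr j) (hv : Pt l0 S Tr i v)
    (hv' : Pt l0 S Tr j v) (hw : Pt l0 S Tr i w) (hvw : v < w) (hw' : Pt l0 S Tr j w')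
    (hvw' : v < w') (hz : Pt l0 S Tr i z) (hzv : z < v) (hz' : Pt l0 S Tr j z') (hzv' : z' < v) :
    w = w' := by
  rcases lt_trichotomy w w' with h | h | h
  · rcases y_lem hn hi hj hz hw with h1 | h1
    · exact absurd (h1 w' hw').2 (not_le.2 h)
    · exact absurd ⟨hzv, hvw⟩ (h1 v hv')
  · exact h
  · rcases y_lem hn hi hj hv hw with h1 | h1
    · exact absurd (h1 z' hz').1 (not_le.2 hzv')
    · exact absurd ⟨hvw', h⟩ (h1 w' hw')

/-- A class with one point below and one above `v` consists of one set. -/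
theorem one_set (hlo : ∀ a, Pt l0 S Tr i a → a < v → a = z)
    (hhi : ∀ a, Pt l0 S Tr i a → v < a → a = w) (h : Pt l0 S Tr i u) : u ∈ S i := by
  have key : ∀ j, Lk l0 S Tr i j → ∀ u, u ∈ S i ↔ u ∈ S j := fun j hj =>
    lk_ind (P := fun j => ∀ u, u ∈ S i ↔ u ∈ S j) (fun u => Iff.rfl) (fun j k hj h1 h2 => by
      have hk := hj.tail h2
      rcases h2.2 with ⟨a, b, c, d, ⟨k1, k2, k3⟩, h4⟩ | h4
      · exfalso
        have ha : Pt l0 S Tr i a := by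
          rcases h4 with h4 | h4
          · exact ⟨j, hj, h4.1.1⟩
          · exact ⟨k, hk, h4.1.1⟩
        have hc : Pt l0 S Tr i c := by
          rcases h4 with h4 | h4
          · exact ⟨j, hj, h4.1.2⟩
          · exact ⟨k, hk, h4.1.2⟩
        have hb : Pt l0 S Tr i b := by
          rcases h4 with h4 | h4
          · exact ⟨k, hk, h4.2.1⟩
          · exact ⟨j, hj, h4.2.1⟩
        have hd : Pt l0 S Tr i d := by
          rcases h4 with h4 | h4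
          · exact ⟨k, hk, h4.2.2⟩
          · exact ⟨j, hj, h4.2.2⟩
        rcases lt_or_ge b v with h5 | h5
        · have e1 := hlo b hb h5
          have e2 := hlo a ha (lt_trans k1 h5)
          exact absurd (e2.trans e1.symm) (ne_of_lt k1)
        · have h6 : v < c := lt_of_le_of_lt h5 k2
          have e1 := hhi c hc h6
          have e2 := hhi d hd (lt_trans h6 k3)
          exact absurd (e1.trans e2.symm) (ne_of_lt k3)
      · exact fun u => (h1 u).trans (h4 u)) hj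
  obtain ⟨j, hj, hu⟩ := h
  exact (key j hj u).2 hu

/-- Two classes with a common inner point are the same. -/
theorem inner (hi : Tr i) (hj : Tr j) (hv : Pt l0 S Tr i v)
    (hv' : Pt l0 S Tr j v) (hw : Pt l0 S Tr i w) (hvw : v < w) (hw' : Pt l0 S Tr j w')
    (hvw' : v < w') (hz : Pt l0 S Tr i z) (hzv : z < v) (hz' : Pt l0 S Tr j z') (hzv' : z' < v) :
    Lk l0 S Tr i j := by
  by_contra hn
  have hn' : ¬ Lk l0 S Tr j i := fun h => hn h.symm
  have a1 : ∀ a, Pt l0 S Tr i a → a < v → a = z' := fun a ha h =>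
    lo_eq hn hi hj hv hv' hw hvw hw' hvw' ha h hz' hzv'
  have a2 : ∀ a, Pt l0 S Tr i a → v < a → a = w' := fun a ha h =>
    hi_eq hn hi hj hv hv' ha h hw' hvw' hz hzv hz' hzv'
  have a3 : ∀ a, Pt l0 S Tr j a → a < v → a = z := fun a ha h =>
    lo_eq hn' hj hi hv' hv hw' hvw' hw hvw ha h hz hzv
  have a4 : ∀ a, Pt l0 S Tr j a → v < a → a = w := fun a ha h =>
    hi_eq hn' hj hi hv' hv ha h hw hvw hz' hzv' hz hzv
  refine hn ((lk_refl i).tail ⟨⟨hi, hj⟩, Or.inr fun u => ⟨fun hu => ?_, fun hu => ?_⟩⟩)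
  · have h1 : Pt l0 S Tr i u := pt_self hu
    refine one_set a3 a4 ?_
    rcases lt_trichotomy u v with h | rfl | h
    · exact (a1 u h1 h) ▸ hz'
    · exact hv'
    · exact (a2 u h1 h) ▸ hw'
  · have h1 : Pt l0 S Tr j u := pt_self hu
    refine one_set a1 a2 ?_
    rcases lt_trichotomy u v with h | rfl | h
    · exact (a3 u h1 h) ▸ hz
    · exact hv
    · exact (a4 u h1 h) ▸ hw

theorem nx_uniq (h1 : Nx l0 S Tr v w) (h2 : Nx l0 S Tr v w') : w = w' := by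
  obtain ⟨i, hi, ⟨⟨k1, k2⟩, k3, k4⟩, z, k5, k6⟩ := h1
  obtain ⟨j, hj, ⟨⟨l1, l2⟩, l3, l4⟩, z', l5, l6⟩ := h2
  have hl := inner hi hj k1 l1 k2 k3 l2 l3 k5 k6 l5 l6
  rcases lt_trichotomy w w' with h | h | h
  · exact absurd ⟨k3, h⟩ (l4 w (hl.pt k2))
  · exact h
  · exact absurd ⟨l3, h⟩ (k4 w' (hl.symm.pt l2))

theorem stp_uniq {n : ℕ} (h1 : Stp (Nx l0 S Tr) n v w) (h2 : Stp (Nx l0 S Tr) n v w') : w = w' := by
  induction n generalizing v with
  | zero => exact Eq.trans h1 (Eq.symm h2)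
  | succ n ih =>
    obtain ⟨a, h3, h4⟩ := h1
    obtain ⟨b, h5, h6⟩ := h2
    have hab := nx_uniq h3 h5
    subst hab
    exact ih h4 h6

theorem pos_uniq {n : ℕ} (h1 : Pos (Nx l0 S Tr) u v n w) (h2 : Pos (Nx l0 S Tr) u v n w') : w = w' := by
  cases n with
  | zero => exact Eq.trans h1 (Eq.symm h2)
  | succ n => exact stp_uniq h1 h2

/-- The next point. -/
theorem next (hf : ∀ a b, Pt l0 S Tr i a → Pt l0 S Tr i b →
      {c | Pt l0 S Tr i c ∧ a < c ∧ c < b}.Finite)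
    (hu : Pt l0 S Tr i u) (ht : Pt l0 S Tr i t) (hut : u < t) :
    ∃ v, Gp l0 S Tr i u v ∧ v ≤ t := by
  by_cases he : {c | Pt l0 S Tr i c ∧ u < c ∧ c < t}.Nonempty
  · obtain ⟨v, ⟨h1, h2, h3⟩, hm⟩ := Set.exists_min_image _ (fun c => c) (hf u t hu ht) he
    exact ⟨v, ⟨⟨hu, h1⟩, h2, fun w hw hc =>
      absurd (hm w ⟨hw, hc.1, lt_trans hc.2 h3⟩) (not_le.2 hc.2)⟩, h3.le⟩
  · rw [Set.not_nonempty_iff_eq_empty] at he
    exact ⟨t, ⟨⟨hu, ht⟩, hut, fun w hw hc => by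
      have h1 : w ∈ {c | Pt l0 S Tr i c ∧ u < c ∧ c < t} := ⟨hw, hc.1, hc.2⟩
      rw [he] at h1
      exact h1⟩, le_rfl⟩

theorem stp_ex (hi : Tr i) (hf : ∀ a b, Pt l0 S Tr i a → Pt l0 S Tr i b →
      {c | Pt l0 S Tr i c ∧ a < c ∧ c < b}.Finite) (m : ℕ) :
    ∀ u v : α, Pt l0 S Tr i u → Pt l0 S Tr i v → u < v → Pt l0 S Tr i t → v ≤ t →
      {c | Pt l0 S Tr i c ∧ v < c ∧ c < t}.ncard = m → ∃ n, Stp (Nx l0 S Tr) n v t := by
  induction m using Nat.strong_induction_on with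
  | _ m ih =>
    intro u v hu hv huv ht hvt hm
    rcases hvt.eq_or_lt with rfl | hvt
    · exact ⟨0, rfl⟩
    · obtain ⟨w, hw, hwt⟩ := next hf hv ht hvt
      have hnx : Nx l0 S Tr v w := ⟨i, hi, hw, u, hu, huv⟩
      have h1 : ∃ n, Stp (Nx l0 S Tr) n w t := by
        rcases hwt.eq_or_lt with rfl | hwt'
        · exact ⟨0, rfl⟩
        · have h3 : {c | Pt l0 S Tr i c ∧ w < c ∧ c < t}.ncard <
              {c | Pt l0 S Tr i c ∧ v < c ∧ c < t}.ncard := by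
            refine Set.ncard_lt_ncard ⟨fun c hc => ⟨hc.1, lt_trans hw.2.1 hc.2.1, hc.2.2⟩,
              fun hc => ?_⟩ (hf v t hv ht)
            exact lt_irrefl _ (hc (show w ∈ {c | Pt l0 S Tr i c ∧ v < c ∧ c < t} from
              ⟨hw.1.2, hw.2.1, hwt'⟩)).2.1
          exact ih _ (hm ▸ h3) v w hv hw.1.2 hw.2.1 ht hwt rfl
      obtain ⟨n, hn⟩ := h1
      exact ⟨n + 1, w, hnx, hn⟩

/-- Positions exist. -/
theorem pos_ex (hi : Tr i) (hf : ∀ a b, Pt l0 S Tr i a → Pt l0 S Tr i b →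
      {c | Pt l0 S Tr i c ∧ a < c ∧ c < b}.Finite) (hS : (S i).Finite)
    (hne : ∃ a ∈ S i, ∃ b ∈ S i, a ≠ b) :
    ∃ u v, u ∈ S i ∧ Gp l0 S Tr i u v ∧ ∀ t, t ∈ S i → ∃ n, Pos (Nx l0 S Tr) u v n t := by
  obtain ⟨a, ha, b, hb, hab⟩ := hne
  obtain ⟨u, hu, hm⟩ := Set.exists_min_image _ (fun c => c) hS ⟨a, ha⟩
  obtain ⟨c, hc, huc⟩ : ∃ c ∈ S i, u < c := by
    by_cases h1 : u = a
    · exact ⟨b, hb, lt_of_le_of_ne (hm b hb) (h1 ▸ hab)⟩
    · exact ⟨a, ha, lt_of_le_of_ne (hm a ha) h1⟩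
  obtain ⟨v, hv, hvc⟩ := next hf (pt_self hu) (pt_self hc) huc
  refine ⟨u, v, hu, hv, fun t ht => ?_⟩
  rcases (hm t ht).eq_or_lt with h1 | h1
  · exact ⟨0, h1.symm⟩
  · have h2 : v ≤ t := by
      by_contra hcc
      exact hv.2.2 t (pt_self ht) ⟨h1, not_le.1 hcc⟩
    obtain ⟨n, hn⟩ := stp_ex hi hf _ u v (pt_self hu) hv.1.2 hv.2.1 (pt_self ht) h2 rfl
    exact ⟨n + 1, hn⟩

/-- If the sets are covered by a family of pairwise noncrossing sets, every class is contained in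
one of them. -/
theorem cover {F : Set (Set α)} (hF : ∀ A ∈ F, ∀ B ∈ F, A ≠ B → ¬ Crs l0 A B)
    (hc : ∀ i, Tr i → ∃ A ∈ F, S i ⊆ A) (hi : Tr i) : ∃ A ∈ F, ∀ u, Pt l0 S Tr i u → u ∈ A := by
  obtain ⟨A, hA, h1⟩ := hc i hi
  refine ⟨A, hA, ?_⟩
  have key : ∀ j, Lk l0 S Tr i j → S j ⊆ A := fun j hj =>
    lk_ind (P := fun j => S j ⊆ A) h1 (fun j k hj h2 h3 => by
      rcases h3.2 with h4 | h4
      · obtain ⟨B, hB, h5⟩ := hc k h3.1.2
        have hAB : A = B := by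
          by_contra hne
          refine hF A hA B hB hne ?_
          obtain ⟨p, q, r, s, h6, h7 | h7⟩ := h4
          · exact ⟨p, q, r, s, h6, Or.inl ⟨⟨h2 h7.1.1, h2 h7.1.2⟩, h5 h7.2.1, h5 h7.2.2⟩⟩
          · exact ⟨p, q, r, s, h6, Or.inr ⟨⟨h5 h7.1.1, h5 h7.1.2⟩, h2 h7.2.1, h2 h7.2.2⟩⟩
        rw [hAB]
        exact h5
      · exact fun u hu => h2 ((h4 u).2 hu)) hj
  rintro u ⟨j, hj, hu⟩
  exact key j hj hu

end facts

/-! ### Relabelling -/

theorem xex {α β : Type} (σ : α ≃ β) {P : α → Prop} {P' : β → Prop} (h : ∀ a, P' (σ a) ↔ P a) :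
    (∃ b, P' b) ↔ ∃ a, P a :=
  ⟨fun ⟨b, hb⟩ => by
    obtain ⟨a, rfl⟩ := σ.surjective b
    exact ⟨a, (h a).1 hb⟩, fun ⟨a, ha⟩ => ⟨σ a, (h a).2 ha⟩⟩

theorem xall {α β : Type} (σ : α ≃ β) {P : α → Prop} {P' : β → Prop} (h : ∀ a, P' (σ a) ↔ P a) :
    (∀ b, P' b) ↔ ∀ a, P a :=
  ⟨fun h1 a => (h a).1 (h1 _), fun h1 b => by
    obtain ⟨a, rfl⟩ := σ.surjective b
    exact (h a).2 (h1 a)⟩

section relabel

variable {α α' ι ι' : Type} {lt : α → α → Prop} {lt' : α' → α' → Prop} {S : ι → Set α}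
  {S' : ι' → Set α'} {Tr : ι → Prop} {Tr' : ι' → Prop} (σ : α ≃ α') (φ : ι ≃ ι')

theorem r_crs (h1 : ∀ u v, lt' (σ u) (σ v) ↔ lt u v) {A B : Set α} {A' B' : Set α'}
    (hA : ∀ u, σ u ∈ A' ↔ u ∈ A) (hB : ∀ u, σ u ∈ B' ↔ u ∈ B) :
    Crs lt' A' B' ↔ Crs lt A B :=
  xex σ fun p => xex σ fun q => xex σ fun r => xex σ fun s =>
    and_congr (and_congr (h1 p q) (and_congr (h1 q r) (h1 r s)))
      (or_congr (and_congr (and_congr (hA p) (hA r)) (and_congr (hB q) (hB s)))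
        (and_congr (and_congr (hB p) (hB r)) (and_congr (hA q) (hA s))))

theorem r_rl (h1 : ∀ u v, lt' (σ u) (σ v) ↔ lt u v) (h2 : ∀ i u, σ u ∈ S' (φ i) ↔ u ∈ S i)
    (h3 : ∀ i, Tr' (φ i) ↔ Tr i) (i j : ι) : Rl lt' S' Tr' (φ i) (φ j) ↔ Rl lt S Tr i j :=
  and_congr (and_congr (h3 i) (h3 j)) (or_congr (r_crs σ h1 (h2 i) (h2 j))
    (xall σ fun u => iff_congr (h2 i u) (h2 j u)))

theorem r_itr (h1 : ∀ u v, lt' (σ u) (σ v) ↔ lt u v) (h2 : ∀ i u, σ u ∈ S' (φ i) ↔ u ∈ S i)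
    (h3 : ∀ i, Tr' (φ i) ↔ Tr i) (n : ℕ) : ∀ i j : ι,
    Itr lt' S' Tr' n (φ i) (φ j) ↔ Itr lt S Tr n i j := by
  induction n with
  | zero => exact fun i j => φ.injective.eq_iff
  | succ n ih => exact fun i j => xex φ fun k => and_congr (ih i k) (r_rl σ φ h1 h2 h3 k j)

theorem r_pt (h1 : ∀ u v, lt' (σ u) (σ v) ↔ lt u v) (h2 : ∀ i u, σ u ∈ S' (φ i) ↔ u ∈ S i)
    (h3 : ∀ i, Tr' (φ i) ↔ Tr i) (i : ι) (u : α) :
    Pt lt' S' Tr' (φ i) (σ u) ↔ Pt lt S Tr i u :=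
  xex φ fun j => and_congr (exists_congr fun n => r_itr σ φ h1 h2 h3 n i j) (h2 j u)

theorem r_gp (h1 : ∀ u v, lt' (σ u) (σ v) ↔ lt u v) (h2 : ∀ i u, σ u ∈ S' (φ i) ↔ u ∈ S i)
    (h3 : ∀ i, Tr' (φ i) ↔ Tr i) (i : ι) (u v : α) :
    Gp lt' S' Tr' (φ i) (σ u) (σ v) ↔ Gp lt S Tr i u v :=
  and_congr (and_congr (r_pt σ φ h1 h2 h3 i u) (r_pt σ φ h1 h2 h3 i v))
    (and_congr (h1 u v) (xall σ fun w => imp_congr (r_pt σ φ h1 h2 h3 i w)
      (not_congr (and_congr (h1 u w) (h1 w v)))))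

theorem r_nx (h1 : ∀ u v, lt' (σ u) (σ v) ↔ lt u v) (h2 : ∀ i u, σ u ∈ S' (φ i) ↔ u ∈ S i)
    (h3 : ∀ i, Tr' (φ i) ↔ Tr i) (v w : α) :
    Nx lt' S' Tr' (σ v) (σ w) ↔ Nx lt S Tr v w :=
  xex φ fun i => and_congr (h3 i) (and_congr (r_gp σ φ h1 h2 h3 i v w)
    (xex σ fun z => and_congr (r_pt σ φ h1 h2 h3 i z) (h1 z v)))

theorem r_stp {N : α → α → Prop} {N' : α' → α' → Prop} (h : ∀ u v, N' (σ u) (σ v) ↔ N u v)
    (n : ℕ) : ∀ v w, Stp N' n (σ v) (σ w) ↔ Stp N n v w := by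
  induction n with
  | zero => exact fun v w => σ.injective.eq_iff
  | succ n ih => exact fun v w => xex σ fun v' => and_congr (h v v') (ih v' w)

theorem r_pos {N : α → α → Prop} {N' : α' → α' → Prop} (h : ∀ u v, N' (σ u) (σ v) ↔ N u v)
    (u v : α) (n : ℕ) (w : α) : Pos N' (σ u) (σ v) n (σ w) ↔ Pos N u v n w := by
  cases n with
  | zero => exact σ.injective.eq_iff
  | succ n => exact r_stp σ h n v w

end relabel

/-! ### Measurability -/

section meas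

variable {X : Type} [MeasurableSpace X] {α ι : Type} [Countable α] [Countable ι]
  {lt : X → α → α → Prop} {S : ι → Set α} {Tr : X → ι → Prop}

omit [Countable ι] in
theorem b_rl (h1 : ∀ u v, Measurable fun x => lt x u v) (h2 : ∀ i, Measurable fun x => Tr x i)
    (i j : ι) : Measurable fun x => Rl (lt x) S (Tr x) i j :=
  ((h2 i).and (h2 j)).and ((Measurable.exists fun p => Measurable.exists fun q =>
    Measurable.exists fun r => Measurable.exists fun s =>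
      ((h1 p q).and ((h1 q r).and (h1 r s))).and measurable_const).or measurable_const)

theorem b_itr (h1 : ∀ u v, Measurable fun x => lt x u v) (h2 : ∀ i, Measurable fun x => Tr x i)
    (n : ℕ) : ∀ i j : ι, Measurable fun x => Itr (lt x) S (Tr x) n i j := by
  induction n with
  | zero => exact fun i j => measurable_const
  | succ n ih => exact fun i j => Measurable.exists fun k => (ih i k).and (b_rl h1 h2 k j)

theorem b_pt (h1 : ∀ u v, Measurable fun x => lt x u v) (h2 : ∀ i, Measurable fun x => Tr x i)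
    (i : ι) (u : α) : Measurable fun x => Pt (lt x) S (Tr x) i u :=
  Measurable.exists fun j => (Measurable.exists fun n => b_itr h1 h2 n i j).and measurable_const

theorem b_gp (h1 : ∀ u v, Measurable fun x => lt x u v) (h2 : ∀ i, Measurable fun x => Tr x i)
    (i : ι) (u v : α) : Measurable fun x => Gp (lt x) S (Tr x) i u v :=
  ((b_pt h1 h2 i u).and (b_pt h1 h2 i v)).and ((h1 u v).and (Measurable.forall fun w =>
    (b_pt h1 h2 i w).imp ((h1 u w).and (h1 w v)).not))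

theorem b_nx (h1 : ∀ u v, Measurable fun x => lt x u v) (h2 : ∀ i, Measurable fun x => Tr x i)
    (v w : α) : Measurable fun x => Nx (lt x) S (Tr x) v w :=
  Measurable.exists fun i => (h2 i).and ((b_gp h1 h2 i v w).and
    (Measurable.exists fun z => (b_pt h1 h2 i z).and (h1 z v)))

theorem b_stp {N : X → α → α → Prop} (h : ∀ u v, Measurable fun x => N x u v) (n : ℕ) :
    ∀ v w, Measurable fun x => Stp (N x) n v w := by
  induction n with
  | zero => exact fun v w => measurable_const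
  | succ n ih => exact fun v w => Measurable.exists fun v' => (h v v').and (ih v' w)

theorem b_pos {N : X → α → α → Prop} (h : ∀ u v, Measurable fun x => N x u v) (u v : α) (n : ℕ)
    (w : α) : Measurable fun x => Pos (N x) u v n w := by
  cases n with
  | zero => exact measurable_const
  | succ n => exact b_stp h n v w

end meas

end Pool.Agent.K7.H41.NC
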