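import Pool.Agent.K7.H41.NC.Dec
import Pool.Agent.K7.H41.NC.Crs

set_option autoImplicit false

/-!
Ordered structures covered, up to finitely many elements, by noncrossing locally finite sets: codes
by linear orders with noncrossing coloured edges.
-/

namespace Pool.Agent.K7.H41.NC

open Pool.Agent.H533R2.VO (RS RIso)
open Pool.Agent.H533R2.VS
open Pool.Agent.TH425.FF
open Encodable

/-- Tuples. -/
abbrev Tp (a : ℕ → ℕ) : Type := Σ k, (Fin (a k) → ℕ)

section defs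

variable {a : ℕ → ℕ}

/-- The order. -/
def Lo (ε : ℕ) (x : RS a) (u v : ℕ) : Prop := x ε (p2 u v) = true

/-- The support of a tuple, without the parameters. -/
def Sp (p : List ℕ) (τ : Tp a) : Set ℕ := {u | (∃ i, τ.2 i = u) ∧ u ∉ p}

/-- Tuples in some relation, whose support has at least two elements. -/
def Tr (ε : ℕ) (p : List ℕ) (x : RS a) (τ : Tp a) : Prop :=
  (τ.1 ≠ ε ∧ ∃ i j, τ.2 i ≠ τ.2 j ∧ τ.2 i ∉ p ∧ τ.2 j ∉ p) ∧ x τ.1 τ.2 = true

/-- Steps. -/
def Nn (ε : ℕ) (p : List ℕ) (x : RS a) : ℕ → ℕ → Prop := Nx (Lo ε x) (Sp p) (Tr ε p x)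

/-- Gaps. -/
def Gg (ε : ℕ) (p : List ℕ) (x : RS a) (τ : Tp a) (u v : ℕ) : Prop :=
  Gp (Lo ε x) (Sp p) (Tr ε p x) τ u v

/-- Positions and parameters. -/
def Pw (N : ℕ → ℕ → Prop) (p : List ℕ) (u v c w : ℕ) : Prop :=
  (c % 2 = 0 ∧ Pos N u v (c / 2) w) ∨ (c % 2 ≠ 0 ∧ p[c / 2]? = some w)

/-- The edges of the code. -/
def E1 (ε : ℕ) (p : List ℕ) (x : RS a) : Option (Tp a) → ℕ → ℕ → Prop
  | none => Nn ε p x
  | some ν => fun u v => ∃ t : Fin (a ν.1) → ℕ, Tr ε p x ⟨ν.1, t⟩ ∧ Gg ε p x ⟨ν.1, t⟩ u v ∧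
      ∀ i, Pw (Nn ε p x) p u v (ν.2 i) (t i)

/-- The unary predicates of the code. -/
def U1 (ε : ℕ) (p : List ℕ) (x : RS a) (ν : Tp a) (u : ℕ) : Prop :=
  ν.1 ≠ ε ∧ ∃ t : Fin (a ν.1) → ℕ, x ν.1 t = true ∧ ∀ i, Pw (fun _ _ => False) p u u (ν.2 i) (t i)

/-- The relations of the code. -/
def R1 (ε : ℕ) (p : List ℕ) (x : RS a) : ℕ → P2
  | 0 => Lo ε x
  | n + 1 => fun u v =>
      (n % 2 = 0 ∧ ∃ c, (decode (n / 2) : Option (Option (Tp a))) = some c ∧ E1 ε p x c u v) ∨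
      (n % 2 ≠ 0 ∧ u = v ∧ ∃ ν, (decode (n / 2) : Option (Tp a)) = some ν ∧ U1 ε p x ν u)

/-- The code. -/
noncomputable def enc1 (ε : ℕ) (p : List ℕ) (x : RS a) : RS ar := mk (fun _ _ _ => False) (R1 ε p x)

/-- The relations, recovered. -/
def D1 (ε : ℕ) (p : List ℕ) (y : RS ar) (k : ℕ) (t : Fin (a k) → ℕ) : Prop :=
  (k = ε ∧ ∃ u v, t = p2 u v ∧ Lt y u v) ∨ (k ≠ ε ∧
    ((∃ (ν : Fin (a k) → ℕ) (u : ℕ), Un y (encode (⟨k, ν⟩ : Tp a)) u ∧
      ∀ i, Pw (fun _ _ => False) p u u (ν i) (t i)) ∨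
    (∃ (ν : Fin (a k) → ℕ) (u v : ℕ), Ed y (encode (some (⟨k, ν⟩ : Tp a))) u v ∧
      ∀ i, Pw (Ed y (encode (none : Option (Tp a)))) p u v (ν i) (t i))))

open Classical in
/-- Decoding. -/
noncomputable def dec1 (ε : ℕ) (p : List ℕ) (y : RS ar) : RS a := fun k t => decide (D1 ε p y k t)

/-- The order is a linear order. -/
structure Lin (ε : ℕ) (x : RS a) : Prop where
  irr : ∀ u, ¬ Lo ε x u u
  trans : ∀ u v w, Lo ε x u v → Lo ε x v w → Lo ε x u w
  total : ∀ u v, u ≠ v → Lo ε x u v ∨ Lo ε x v u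

open Classical in
/-- The order as an instance. -/
@[reducible] noncomputable def Lin.lo {ε : ℕ} {x : RS a} (h : Lin ε x) : LinearOrder ℕ :=
  haveI : IsStrictTotalOrder ℕ (Lo ε x) :=
    { trichotomous := fun u v h1 h2 => by
        by_contra h3
        rcases h.total u v h3 with h4 | h4
        · exact h1 h4
        · exact h2 h4
      irrefl := h.irr
      trans := h.trans }
  linearOrderOfSTO (Lo ε x)

/-- The classes of crossing supports are locally finite. -/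
def Lf (ε : ℕ) (p : List ℕ) (x : RS a) : Prop := ∀ τ, Tr ε p x τ → ∀ u v,
  Pt (Lo ε x) (Sp p) (Tr ε p x) τ u → Pt (Lo ε x) (Sp p) (Tr ε p x) τ v →
    {c | Pt (Lo ε x) (Sp p) (Tr ε p x) τ c ∧ Lo ε x u c ∧ Lo ε x c v}.Finite

end defs

section facts

variable {a : ℕ → ℕ} {ε : ℕ} {p : List ℕ} {x : RS a} {u v w w' c n : ℕ}

theorem enc1_L : Lt (enc1 ε p x) u v ↔ Lo ε x u v := mk_R 0 u v

theorem enc1_E (c : Option (Tp a)) : Ed (enc1 ε p x) (encode c) u v ↔ E1 ε p x c u v := by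
  refine (mk_R (2 * encode c + 1) u v).trans ?_
  show ((2 * encode c) % 2 = 0 ∧ ∃ c', (decode ((2 * encode c) / 2) : Option (Option (Tp a))) =
    some c' ∧ E1 ε p x c' u v) ∨ ((2 * encode c) % 2 ≠ 0 ∧ u = v ∧ ∃ ν,
      (decode ((2 * encode c) / 2) : Option (Tp a)) = some ν ∧ U1 ε p x ν u) ↔ _
  have h1 : (2 * encode c) % 2 = 0 := by omega
  have h2 : (2 * encode c) / 2 = encode c := by omega
  rw [h2, encodek]
  simp only [h1, true_and, ne_eq, not_true_eq_false, false_and, or_false, Option.some.injEq,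
    exists_eq_left']

theorem enc1_U (ν : Tp a) : Un (enc1 ε p x) (encode ν) u ↔ U1 ε p x ν u := by
  refine (mk_R (2 * encode ν + 2) u u).trans ?_
  show ((2 * encode ν + 1) % 2 = 0 ∧ ∃ c', (decode ((2 * encode ν + 1) / 2) :
    Option (Option (Tp a))) = some c' ∧ E1 ε p x c' u u) ∨ ((2 * encode ν + 1) % 2 ≠ 0 ∧ u = u ∧
      ∃ ν', (decode ((2 * encode ν + 1) / 2) : Option (Tp a)) = some ν' ∧ U1 ε p x ν' u) ↔ _
  have h1 : ¬ (2 * encode ν + 1) % 2 = 0 := by omega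
  have h2 : (2 * encode ν + 1) / 2 = encode ν := by omega
  rw [h2, encodek]
  simp only [h1, false_and, ne_eq, not_false_eq_true, true_and, false_or, Option.some.injEq,
    exists_eq_left']

theorem enc1_ad (h : Ad (enc1 ε p x) u v) : ∃ τ, Tr ε p x τ ∧ Gg ε p x τ u v := by
  obtain ⟨k, hk⟩ := h
  have h1 := (mk_R (2 * k + 1) u v).1 hk
  have h2 : ¬ (2 * k) % 2 ≠ 0 := by omega
  rcases h1 with ⟨-, c, -, h3⟩ | ⟨h3, -⟩
  · match c, h3 with
    | none, ⟨τ, h4, h5, _⟩ => exact ⟨τ, h4, h5⟩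
    | some ν, ⟨t, h4, h5, _⟩ => exact ⟨_, h4, h5⟩
  · exact absurd h3 h2

theorem Lin.nc (h : Lin ε x) (p : List ℕ) : Nc (enc1 ε p x) where
  irr u hu := h.irr u (enc1_L.1 hu)
  trans u v w h1 h2 := enc1_L.2 (h.trans u v w (enc1_L.1 h1) (enc1_L.1 h2))
  total u v h1 := (h.total u v h1).imp enc1_L.2 enc1_L.2
  sub k u v h1 := by
    obtain ⟨τ, -, h2⟩ := enc1_ad ⟨k, h1⟩
    exact enc1_L.2 h2.2.1
  un k u v h1 := by
    have h2 := (mk_R (2 * k + 2) u v).1 h1
    rcases h2 with ⟨h3, -⟩ | ⟨-, h3, -⟩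
    · omega
    · exact h3
  nc i j k l h1 h2 h3 h4 h5 := by
    obtain ⟨τ, k1, k2⟩ := enc1_ad h4
    obtain ⟨τ', k3, k4⟩ := enc1_ad h5
    exact @gp_nc ℕ (Tp a) h.lo (Sp p) (Tr ε p x) τ τ' i k j l k1 k3 k2 k4 (enc1_L.1 h1)
      (enc1_L.1 h2) (enc1_L.1 h3)
  d0 u v w h1 := (mk_D u v w).1 h1

theorem Lin.nn_uniq (h : Lin ε x) (h1 : Nn ε p x u v) (h2 : Nn ε p x u w) : v = w :=
  @nx_uniq ℕ (Tp a) h.lo (Sp p) (Tr ε p x) u v w h1 h2

theorem stp_fun {N : ℕ → ℕ → Prop} (hN : ∀ u v w, N u v → N u w → v = w) (n : ℕ) :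
    ∀ u v w, Stp N n u v → Stp N n u w → v = w := by
  induction n with
  | zero => exact fun u v w h1 h2 => Eq.trans h1 (Eq.symm h2)
  | succ n ih =>
    rintro u v w ⟨b, h3, h4⟩ ⟨b', h5, h6⟩
    have hab := hN u b b' h3 h5
    subst hab
    exact ih _ _ _ h4 h6

theorem pw_fun {N : ℕ → ℕ → Prop} (hN : ∀ u v w, N u v → N u w → v = w)
    (h1 : Pw N p u v c w) (h2 : Pw N p u v c w') : w = w' := by
  rcases h1 with ⟨h1, h3⟩ | ⟨h1, h3⟩
  · rcases h2 with ⟨-, h4⟩ | ⟨h2, -⟩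
    · generalize c / 2 = m at h3 h4
      cases m with
      | zero => exact Eq.trans h3 (Eq.symm h4)
      | succ m => exact stp_fun hN m _ _ _ h3 h4
    · exact absurd h1 h2
  · rcases h2 with ⟨h2, -⟩ | ⟨-, h4⟩
    · exact absurd h2 h1
    · exact Option.some.inj (h3.symm.trans h4)

theorem stp_congr {N N' : ℕ → ℕ → Prop} (h : ∀ u v, N u v ↔ N' u v) (n : ℕ) :
    ∀ u v, Stp N n u v ↔ Stp N' n u v := by
  induction n with
  | zero => exact fun u v => Iff.rfl
  | succ n ih => exact fun u v => exists_congr fun b => and_congr (h u b) (ih b v)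

theorem pw_congr {N N' : ℕ → ℕ → Prop} (h : ∀ u v, N u v ↔ N' u v) :
    Pw N p u v c w ↔ Pw N' p u v c w := by
  unfold Pw
  generalize c / 2 = m
  cases m with
  | zero => exact Iff.rfl
  | succ m => exact or_congr (and_congr Iff.rfl (stp_congr h m v w)) Iff.rfl

theorem pw_par (h : w ∈ p) (N : ℕ → ℕ → Prop) : ∃ c, ∀ u v, Pw N p u v c w := by
  obtain ⟨j, hj⟩ := List.mem_iff_getElem?.1 h
  refine ⟨2 * j + 1, fun u v => Or.inr ⟨by omega, ?_⟩⟩
  rw [show (2 * j + 1) / 2 = j by omega]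
  exact hj

theorem eta2' {m : ℕ} (hm : m = 2) (t : Fin m → ℕ) : ∃ u v, t = p2 u v := by
  subst hm
  exact ⟨t 0, t 1, (eta2 t).symm⟩

/-- Decoding the code. -/
theorem Lin.dec_enc1 (h : Lin ε x) (hε : a ε = 2) (hf : Lf ε p x) : dec1 ε p (enc1 ε p x) = x := by
  classical
  funext k t
  rw [Bool.eq_iff_iff]
  refine decide_eq_true_iff.trans ?_
  unfold D1
  by_cases hk : k = ε
  · subst hk
    simp only [true_and, ne_eq, not_true_eq_false, false_and, or_false]
    constructor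
    · rintro ⟨u, v, rfl, h1⟩
      exact enc1_L.1 h1
    · intro h1
      obtain ⟨u, v, rfl⟩ := eta2' hε t
      exact ⟨u, v, rfl, enc1_L.2 h1⟩
  · simp only [hk, false_and, ne_eq, not_false_eq_true, true_and, false_or]
    simp only [enc1_U, enc1_E]
    have hN : ∀ u v, Ed (enc1 ε p x) (encode (none : Option (Tp a))) u v ↔ Nn ε p x u v :=
      fun u v => enc1_E none
    constructor
    · rintro (⟨ν, u, ⟨-, t', h1, h2⟩, h3⟩ | ⟨ν, u, v, ⟨t', h1, -, h2⟩, h3⟩)
      · have ht : t' = t := by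
          funext i
          exact pw_fun (fun _ _ _ hh => hh.elim) (h2 i) (h3 i)
        rw [← ht]
        exact h1
      · have ht : t' = t := by
          funext i
          exact pw_fun (N := Nn ε p x) (fun _ _ _ => h.nn_uniq) (h2 i) ((pw_congr hN).1 (h3 i))
        rw [← ht]
        exact h1.2
    · intro h1
      by_cases hT : Tr ε p x ⟨k, t⟩
      · right
        have hT' := hT
        obtain ⟨⟨-, i, j, h2, h3, h4⟩, -⟩ := hT
        have hfin : (Sp p (⟨k, t⟩ : Tp a)).Finite :=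
          (Set.finite_range t).subset fun b hb => hb.1
        obtain ⟨u, v, hu, hv, hpos⟩ := @pos_ex ℕ (Tp a) h.lo (Sp p) (Tr ε p x) ⟨k, t⟩ hT'
          (hf _ hT') hfin ⟨t i, ⟨⟨i, rfl⟩, h3⟩, t j, ⟨⟨j, rfl⟩, h4⟩, h2⟩
        have hex : ∀ l, ∃ c, Pw (Nn ε p x) p u v c (t l) := by
          intro l
          by_cases hl : t l ∈ p
          · obtain ⟨c, hc⟩ := pw_par hl (Nn ε p x)
            exact ⟨c, hc u v⟩
          · obtain ⟨n, hn⟩ := hpos (t l) ⟨⟨l, rfl⟩, hl⟩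
            refine ⟨2 * n, Or.inl ⟨by omega, ?_⟩⟩
            rw [show 2 * n / 2 = n by omega]
            exact hn
        choose ν hν using hex
        exact ⟨ν, u, v, ⟨t, hT', hv, hν⟩, fun l => (pw_congr hN).2 (hν l)⟩
      · left
        obtain ⟨u, hu⟩ : ∃ u, ∀ i, t i ∉ p → t i = u := by
          by_cases h2 : ∃ i, t i ∉ p
          · obtain ⟨i, hi⟩ := h2
            refine ⟨t i, fun j hj => ?_⟩
            by_contra hne
            exact hT ⟨⟨hk, j, i, hne, hj, hi⟩, h1⟩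
          · push Not at h2
            exact ⟨0, fun i hi => absurd (h2 i) hi⟩
        have hex : ∀ l, ∃ c, Pw (fun _ _ => False) p u u c (t l) := by
          intro l
          by_cases hl : t l ∈ p
          · obtain ⟨c, hc⟩ := pw_par hl (fun _ _ => False)
            exact ⟨c, hc u u⟩
          · exact ⟨0, Or.inl ⟨rfl, hu l hl⟩⟩
        choose ν hν using hex
        exact ⟨ν, u, ⟨hk, t, h1, hν⟩, hν⟩

end facts

/-! ### Relabelling and measurability -/

/-- Relabelling of tuples. -/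
def tpe {a : ℕ → ℕ} (σ : Equiv.Perm ℕ) : Tp a ≃ Tp a where
  toFun τ := ⟨τ.1, σ ∘ τ.2⟩
  invFun τ := ⟨τ.1, σ.symm ∘ τ.2⟩
  left_inv τ := by
    have h : σ.symm ∘ (σ ∘ τ.2) = τ.2 := by
      funext i
      exact σ.symm_apply_apply _
    show (⟨τ.1, σ.symm ∘ (σ ∘ τ.2)⟩ : Tp a) = τ
    rw [h]
  right_inv τ := by
    have h : σ ∘ (σ.symm ∘ τ.2) = τ.2 := by
      funext i
      exact σ.apply_symm_apply _
    show (⟨τ.1, σ ∘ (σ.symm ∘ τ.2)⟩ : Tp a) = τ
    rw [h]

/-- Relabelling of tuples of a given length. -/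
def tpn (σ : Equiv.Perm ℕ) (n : ℕ) : (Fin n → ℕ) ≃ (Fin n → ℕ) where
  toFun t := σ ∘ t
  invFun t := σ.symm ∘ t
  left_inv t := by
    funext i
    exact σ.symm_apply_apply _
  right_inv t := by
    funext i
    exact σ.apply_symm_apply _

section canon

variable {a : ℕ → ℕ} (ε : ℕ) (σ : Equiv.Perm ℕ) (p : List ℕ) (x : RS a)

theorem s_x (k : ℕ) (t : Fin (a k) → ℕ) : act σ x k (σ ∘ t) = x k t := by
  show x k (σ.symm ∘ (σ ∘ t)) = x k t
  congr 1
  funext i
  exact σ.symm_apply_apply _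

theorem s_Lo (u v : ℕ) : Lo ε (act σ x) (σ u) (σ v) ↔ Lo ε x u v := by
  show x ε (σ.symm ∘ _) = true ↔ _
  rw [p2_act]
  exact Iff.rfl

theorem s_mem (u : ℕ) : σ u ∈ p.map σ ↔ u ∈ p :=
  List.mem_map_of_injective σ.injective

theorem s_Sp (τ : Tp a) (u : ℕ) : σ u ∈ Sp (p.map σ) (tpe σ τ) ↔ u ∈ Sp p τ :=
  and_congr (exists_congr fun _ => σ.injective.eq_iff) (not_congr (s_mem σ p u))

theorem s_Tr (τ : Tp a) : Tr ε (p.map σ) (act σ x) (tpe σ τ) ↔ Tr ε p x τ := by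
  refine and_congr (and_congr Iff.rfl (exists_congr fun i => exists_congr fun j =>
    and_congr (not_congr σ.injective.eq_iff) (and_congr (not_congr (s_mem σ p _))
      (not_congr (s_mem σ p _))))) ?_
  rw [← s_x σ x τ.1 τ.2]
  exact Iff.rfl

theorem s_Nn (u v : ℕ) : Nn ε (p.map σ) (act σ x) (σ u) (σ v) ↔ Nn ε p x u v :=
  r_nx σ (tpe σ) (s_Lo ε σ x) (s_Sp σ p) (s_Tr ε σ p x) u v

theorem s_Gg (τ : Tp a) (u v : ℕ) :
    Gg ε (p.map σ) (act σ x) (tpe σ τ) (σ u) (σ v) ↔ Gg ε p x τ u v :=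
  r_gp σ (tpe σ) (s_Lo ε σ x) (s_Sp σ p) (s_Tr ε σ p x) τ u v

theorem s_Pw {N N' : ℕ → ℕ → Prop} (h : ∀ u v, N' (σ u) (σ v) ↔ N u v) (u v c w : ℕ) :
    Pw N' (p.map σ) (σ u) (σ v) c (σ w) ↔ Pw N p u v c w := by
  refine or_congr (and_congr Iff.rfl (r_pos σ h u v _ w)) (and_congr Iff.rfl ?_)
  rw [List.getElem?_map]
  cases p[c / 2]? with
  | none => exact ⟨fun h => by simp at h, fun h => by simp at h⟩
  | some w' =>
    simp only [Option.map_some, Option.some.injEq]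
    exact σ.injective.eq_iff

theorem s_E1 (c : Option (Tp a)) (u v : ℕ) :
    E1 ε (p.map σ) (act σ x) c (σ u) (σ v) ↔ E1 ε p x c u v := by
  cases c with
  | none => exact s_Nn ε σ p x u v
  | some ν =>
    exact xex (tpn σ _) fun t => and_congr (s_Tr ε σ p x ⟨ν.1, t⟩)
      (and_congr (s_Gg ε σ p x ⟨ν.1, t⟩ u v)
        (forall_congr' fun i => s_Pw σ p (s_Nn ε σ p x) u v (ν.2 i) (t i)))

theorem s_U1 (ν : Tp a) (u : ℕ) : U1 ε (p.map σ) (act σ x) ν (σ u) ↔ U1 ε p x ν u :=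
  and_congr Iff.rfl (xex (tpn σ _) fun t => and_congr (by
    show act σ x ν.1 (σ ∘ t) = true ↔ x ν.1 t = true
    rw [s_x]) (forall_congr' fun i => s_Pw σ p (fun _ _ => Iff.rfl) u u (ν.2 i) (t i)))

theorem s_R1 (n u v : ℕ) : R1 ε (p.map σ) (act σ x) n (σ u) (σ v) ↔ R1 ε p x n u v := by
  cases n with
  | zero => exact s_Lo ε σ x u v
  | succ n =>
    exact or_congr (and_congr Iff.rfl (exists_congr fun c => and_congr Iff.rfl
      (s_E1 ε σ p x c u v))) (and_congr Iff.rfl (and_congr σ.injective.eq_iff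
        (exists_congr fun ν => and_congr Iff.rfl (s_U1 ε σ p x ν u))))

theorem s_D1 (y : RS ar) (k : ℕ) (t : Fin (a k) → ℕ) :
    D1 ε (p.map σ) (act σ y) k (σ ∘ t) ↔ D1 ε p y k t := by
  refine or_congr (and_congr Iff.rfl (xex σ fun u => xex σ fun v => and_congr ?_ (e_L σ y u v)))
    (and_congr Iff.rfl (or_congr (exists_congr fun ν => xex σ fun u =>
      and_congr (act_R σ y _ u u) (forall_congr' fun i => s_Pw σ p (fun _ _ => Iff.rfl) u u _ _))
      (exists_congr fun ν => xex σ fun u => xex σ fun v => and_congr (act_R σ y _ u v)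
        (forall_congr' fun i => s_Pw σ p (fun _ _ => act_R σ y _ _ _) u v _ _))))
  constructor
  · intro h
    have h1 : σ.symm ∘ (σ ∘ t) = σ.symm ∘ (p2 (σ u) (σ v) : Fin (a k) → ℕ) := by rw [h]
    rw [p2_act] at h1
    rw [← h1]
    funext i
    exact (σ.symm_apply_apply _).symm
  · intro h
    rw [h]
    funext i
    show σ (p2 u v i) = p2 (σ u) (σ v) i
    unfold p2
    split_ifs <;> rfl

end canon

section meas

variable {a : ℕ → ℕ} (ε : ℕ) (p : List ℕ)

theorem t_Lo (u v : ℕ) : Measurable fun x : RS a => Lo ε x u v := m_eq (m_at ε _)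

theorem t_Tr (τ : Tp a) : Measurable fun x : RS a => Tr ε p x τ :=
  measurable_const.and (m_eq (m_at _ _))

theorem t_Nn (u v : ℕ) : Measurable fun x : RS a => Nn ε p x u v :=
  b_nx (t_Lo ε) (t_Tr ε p) u v

theorem t_Gg (τ : Tp a) (u v : ℕ) : Measurable fun x : RS a => Gg ε p x τ u v :=
  b_gp (t_Lo ε) (t_Tr ε p) τ u v

theorem t_Pw {X : Type} [MeasurableSpace X] {N : X → ℕ → ℕ → Prop}
    (h : ∀ u v, Measurable fun x => N x u v) (u v c w : ℕ) :
    Measurable fun x => Pw (N x) p u v c w :=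
  (measurable_const.and (b_pos h u v _ w)).or measurable_const

theorem t_E1 (c : Option (Tp a)) (u v : ℕ) : Measurable fun x : RS a => E1 ε p x c u v := by
  cases c with
  | none => exact t_Nn ε p u v
  | some ν =>
    exact Measurable.exists fun t => (t_Tr ε p _).and ((t_Gg ε p _ u v).and
      (Measurable.forall fun i => t_Pw p (t_Nn ε p) u v (ν.2 i) (t i)))

theorem t_U1 (ν : Tp a) (u : ℕ) : Measurable fun x : RS a => U1 ε p x ν u :=
  measurable_const.and (Measurable.exists fun t => (m_eq (m_at _ t)).and measurable_const)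

theorem t_R1 (n u v : ℕ) : Measurable fun x : RS a => R1 ε p x n u v := by
  cases n with
  | zero => exact t_Lo ε u v
  | succ n =>
    exact (measurable_const.and (Measurable.exists fun c => measurable_const.and
      (t_E1 ε p c u v))).or (measurable_const.and (measurable_const.and
        (Measurable.exists fun ν => measurable_const.and (t_U1 ε p ν u))))

theorem t_D1 (k : ℕ) (t : Fin (a k) → ℕ) : Measurable fun y : RS ar => D1 ε p y k t :=
  (measurable_const.and (Measurable.exists fun u => Measurable.exists fun v =>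
    measurable_const.and (q_L u v))).or (measurable_const.and ((Measurable.exists fun _ =>
      Measurable.exists fun u => (m_R _ u u).and measurable_const).or
      (Measurable.exists fun _ => Measurable.exists fun u => Measurable.exists fun v =>
        (m_R _ u v).and (Measurable.forall fun _ => t_Pw p (fun _ _ => m_R _ _ _) u v _ _))))

end meas

open Classical in
theorem pcn1 (a : ℕ → ℕ) (ε : ℕ) : PCanon (enc1 (a := a) ε) (dec1 ε) where
  meas p := m_mk (fun _ _ _ => measurable_const) (t_R1 ε p)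
  dmeas p := measurable_pi_iff.2 fun k => measurable_pi_iff.2 fun t => m_dec (t_D1 ε p k t)
  cact σ p x := act_mk σ (fun _ _ _ => Iff.rfl) (s_R1 ε σ p x)
  dact σ p y := by
    classical
    funext k t
    have h : t = σ ∘ (σ.symm ∘ t) := by
      funext i
      exact (σ.apply_symm_apply _).symm
    show decide (D1 ε (p.map σ) (act σ y) k t) = decide (D1 ε p y k (σ.symm ∘ t))
    refine decide_eq_decide.2 ?_
    conv_lhs => rw [h]
    exact s_D1 ε σ p y k _

/-- The class of the codes, for arbitrary arities. -/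
def KG (a : ℕ → ℕ) (ε : ℕ) : RS a → Prop := PExp (enc1 ε) (dec1 ε) KN

theorem ok_KG (a : ℕ → ℕ) (ε : ℕ) : Ok (KG a ε) := ok_KN.pexp (pcn1 a ε)

theorem Lin.kg {a : ℕ → ℕ} {ε : ℕ} {x : RS a} {p : List ℕ} (h : Lin ε x) (hε : a ε = 2)
    (hf : Lf ε p x) : KG a ε x := ⟨p, nc_KN (h.nc p), h.dec_enc1 hε hf⟩

end Pool.Agent.K7.H41.NC
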