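import Pool.Agent.K7.H41.NC.Gen

set_option autoImplicit false

/-!
Families of noncrossing sets; circular orders.
-/

namespace Pool.Agent.K7.H41.NC

open Pool.Agent.H533R2.VO (RS RIso)
open Pool.Agent.H533R2.VS
open Pool.Agent.TH425.FF
open Pool.Agent.W875.TS (p3)

/-- Linear orders: a family of noncrossing locally finite sets which covers the supports. -/
theorem Lin.lf {a : ℕ → ℕ} {ε : ℕ} {p : List ℕ} {x : RS a} (h : Lin ε x) {F : Set (Set ℕ)}
    (h1 : ∀ A ∈ F, ∀ B ∈ F, A ≠ B → ¬ Crs (Lo ε x) A B)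
    (h2 : ∀ A ∈ F, ∀ u ∈ A, ∀ v ∈ A, {c | c ∈ A ∧ Lo ε x u c ∧ Lo ε x c v}.Finite)
    (h3 : ∀ τ : Tp a, τ.1 ≠ ε → x τ.1 τ.2 = true → ∃ A ∈ F, ∀ i, τ.2 i ∈ A ∨ τ.2 i ∈ p) :
    Lf ε p x := by
  intro τ hτ u v hu hv
  obtain ⟨A, hA, hA'⟩ := @cover ℕ (Tp a) h.lo (Sp p) (Tr ε p x) τ F h1 (by
    rintro ⟨k, t⟩ ⟨⟨k1, -⟩, k2⟩
    obtain ⟨A, hA, hA'⟩ := h3 ⟨k, t⟩ k1 k2
    refine ⟨A, hA, ?_⟩
    rintro u ⟨⟨i, rfl⟩, hu⟩
    rcases hA' i with h4 | h4
    · exact h4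
    · exact absurd h4 hu) hτ
  exact (h2 A hA u (hA' u hu) v (hA' v hv)).subset fun c hc => ⟨hA' c hc.1, hc.2⟩

theorem eta3' {m : ℕ} (hm : m = 3) (t : Fin m → ℕ) : ∃ u v w, t = p3 u v w := by
  subst hm
  exact ⟨t 0, t 1, t 2, (eta3 t).symm⟩

section cir

variable {a : ℕ → ℕ}

/-- The arities of the linear structures. -/
def ap (a : ℕ → ℕ) : ℕ → ℕ
  | 0 => 2
  | n + 1 => a n

/-- The circular order. -/
def Co (ε : ℕ) (x : RS a) (u v w : ℕ) : Prop := x ε (p3 u v w) = true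

/-- The order cut at the first parameter. -/
def Lc (ε : ℕ) (p : List ℕ) (x : RS a) (u v : ℕ) : Prop :=
  ∃ r, p[0]? = some r ∧ ((u = r ∧ v ≠ r) ∨ Co ε x r u v)

open Classical in
/-- Cutting. -/
noncomputable def ct (ε : ℕ) (p : List ℕ) (x : RS a) : RS (ap a) := fun i =>
  match i with
  | 0 => fun t => decide (Lc ε p x (t (0 : Fin 2)) (t (1 : Fin 2)))
  | n + 1 => fun t => decide (n ≠ ε ∧ x n t = true)

/-- The circular order, recovered. -/
def Cc (y : RS (ap a)) (u v w : ℕ) : Prop :=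
  (Lo 0 y u v ∧ Lo 0 y v w) ∨ (Lo 0 y v w ∧ Lo 0 y w u) ∨ (Lo 0 y w u ∧ Lo 0 y u v)

open Classical in
/-- Gluing. -/
noncomputable def uc (ε : ℕ) (_p : List ℕ) (y : RS (ap a)) : RS a := fun n t =>
  decide ((n = ε ∧ ∃ u v w, t = p3 u v w ∧ Cc y u v w) ∨ (n ≠ ε ∧ y (n + 1) t = true))

/-- Circular orders. -/
structure Cyc (ε : ℕ) (x : RS a) : Prop where
  cyc : ∀ u v w, Co ε x u v w → Co ε x v w u
  asy : ∀ u v w, Co ε x u v w → ¬ Co ε x w v u
  trn : ∀ u v w z, Co ε x u v w → Co ε x u w z → Co ε x u v z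
  tot : ∀ u v w, u ≠ v → v ≠ w → u ≠ w → Co ε x u v w ∨ Co ε x w v u

/-- Crossing sets. -/
def Cx (C : ℕ → ℕ → ℕ → Prop) (A B : Set ℕ) : Prop :=
  ∃ u v w z, (C u v w ∧ C w z u) ∧ (u ∈ A ∧ w ∈ A) ∧ (v ∈ B ∧ z ∈ B)

variable {ε : ℕ} {p : List ℕ} {x : RS a} {u v w : ℕ}

open Classical in
theorem ct_Lo : Lo 0 (ct ε p x) u v ↔ Lc ε p x u v := by
  show decide _ = true ↔ _
  rw [decide_eq_true_eq]
  exact Iff.rfl

theorem Cyc.ne (h : Cyc ε x) (h1 : Co ε x u v w) : u ≠ v ∧ v ≠ w ∧ w ≠ u := by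
  have key : ∀ u v, ¬ Co ε x u v u := fun u v h2 => h.asy _ _ _ h2 h2
  refine ⟨?_, ?_, ?_⟩
  · rintro rfl
    exact key _ _ (h.cyc _ _ _ h1)
  · rintro rfl
    exact key _ _ (h.cyc _ _ _ (h.cyc _ _ _ h1))
  · rintro rfl
    exact key _ _ h1

theorem Cyc.lc (_h : Cyc ε x) {r : ℕ} (hr : p[0]? = some r) :
    Lc ε p x u v ↔ (u = r ∧ v ≠ r) ∨ Co ε x r u v := by
  constructor
  · rintro ⟨r', h1, h2⟩
    rw [hr] at h1
    obtain rfl := Option.some.inj h1
    exact h2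
  · exact fun h1 => ⟨r, hr, h1⟩

/-- The cut order is linear. -/
theorem Cyc.lin (h : Cyc ε x) {r : ℕ} (hr : p[0]? = some r) : Lin 0 (ct ε p x) where
  irr u hu := by
    rw [ct_Lo, h.lc hr] at hu
    rcases hu with ⟨rfl, h1⟩ | h1
    · exact h1 rfl
    · exact (h.ne h1).2.1 rfl
  trans u v w h1 h2 := by
    rw [ct_Lo, h.lc hr] at h1 h2 ⊢
    rcases h1 with ⟨rfl, h1⟩ | h1
    · rcases h2 with ⟨rfl, h2⟩ | h2
      · exact absurd rfl h1
      · exact Or.inl ⟨rfl, (h.ne h2).2.2⟩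
    · rcases h2 with ⟨rfl, h2⟩ | h2
      · exact absurd rfl (h.ne h1).2.2
      · exact Or.inr (h.trn _ _ _ _ h1 h2)
  total u v huv := by
    rw [ct_Lo, ct_Lo, h.lc hr, h.lc hr]
    by_cases h1 : u = r
    · exact Or.inl (Or.inl ⟨h1, fun h2 => huv (h1.trans h2.symm)⟩)
    · by_cases h2 : v = r
      · exact Or.inr (Or.inl ⟨h2, h1⟩)
      · rcases h.tot r u v (Ne.symm h1) huv (Ne.symm h2) with h3 | h3
        · exact Or.inl (Or.inr h3)
        · refine Or.inr (Or.inr ?_)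
          exact h.cyc _ _ _ (h.cyc _ _ _ h3)

/-- Three points in increasing order. -/
theorem Cyc.inc (h : Cyc ε x) {r : ℕ} (hr : p[0]? = some r) (h1 : Lc ε p x u v)
    (h2 : Lc ε p x v w) : Co ε x u v w := by
  rw [h.lc hr] at h1 h2
  rcases h1 with ⟨rfl, h1⟩ | h1
  · rcases h2 with ⟨rfl, h2⟩ | h2
    · exact absurd rfl h1
    · exact h2
  · rcases h2 with ⟨rfl, h2⟩ | h2
    · exact absurd rfl (h.ne h1).2.2
    · exact h.cyc _ _ _ (h.cyc _ _ _ (h.trn _ _ _ _ (h.cyc _ _ _ h2)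
        (h.cyc _ _ _ (h.cyc _ _ _ h1))))

theorem Cyc.uc_ct (h : Cyc ε x) (hε : a ε = 3) {r : ℕ} (hr : p[0]? = some r) :
    uc ε p (ct ε p x) = x := by
  classical
  funext k t
  rw [Bool.eq_iff_iff]
  refine decide_eq_true_iff.trans ?_
  by_cases hk : k = ε
  · subst hk
    simp only [true_and, ne_eq, not_true_eq_false, false_and, or_false]
    have key : ∀ u v w, Cc (ct k p x) u v w ↔ Co k x u v w := by
      intro u v w
      unfold Cc
      simp only [ct_Lo]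
      constructor
      · rintro (⟨h1, h2⟩ | ⟨h1, h2⟩ | ⟨h1, h2⟩)
        · exact h.inc hr h1 h2
        · exact h.cyc _ _ _ (h.cyc _ _ _ (h.inc hr h1 h2))
        · exact h.cyc _ _ _ (h.inc hr h1 h2)
      · intro h1
        obtain ⟨e1, e2, e3⟩ := h.ne h1
        have hl := h.lin hr
        have tot : ∀ u v, u ≠ v → Lc k p x u v ∨ Lc k p x v u := fun u v huv =>
          (hl.total u v huv).imp ct_Lo.1 ct_Lo.1
        have no : ∀ {u v w}, Co k x u v w → Lc k p x w v → Lc k p x v u → False :=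
          fun k1 k2 k3 => h.asy _ _ _ k1 (h.inc hr k2 k3)
        rcases tot u v e1 with k1 | k1
        · rcases tot v w e2 with k2 | k2
          · exact Or.inl ⟨k1, k2⟩
          · rcases tot w u e3 with k3 | k3
            · exact Or.inr (Or.inr ⟨k3, k1⟩)
            · exact absurd (h.inc hr k3 k2) (fun k4 => h.asy _ _ _ (h.cyc _ _ _ (h.cyc _ _ _ h1))
                (h.cyc _ _ _ (h.cyc _ _ _ (h.cyc _ _ _ (h.cyc _ _ _ (h.cyc _ _ _ k4))))))
        · rcases tot v w e2 with k2 | k2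
          · rcases tot w u e3 with k3 | k3
            · exact Or.inr (Or.inl ⟨k2, k3⟩)
            · exact absurd (h.inc hr k1 k3) (fun k4 => h.asy _ _ _ h1 (h.cyc _ _ _ (h.cyc _ _ _ k4)))
          · exact (no h1 k2 k1).elim
    constructor
    · rintro ⟨u, v, w, rfl, h1⟩
      exact (key u v w).1 h1
    · intro h1
      obtain ⟨u, v, w, rfl⟩ : ∃ u v w, t = p3 u v w := eta3' hε t
      exact ⟨u, v, w, rfl, (key u v w).2 h1⟩
  · simp only [hk, false_and, ne_eq, not_false_eq_true, true_and, false_or]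
    show decide (k ≠ ε ∧ x k t = true) = true ↔ _
    rw [decide_eq_true_eq]
    exact ⟨fun h1 => h1.2, fun h1 => ⟨hk, h1⟩⟩

/-- Crossing in the cut order. -/
theorem Cyc.cx (h : Cyc ε x) {r : ℕ} (hr : p[0]? = some r) {A B : Set ℕ}
    (h1 : Crs (Lo 0 (ct ε p x)) A B) : Cx (Co ε x) A B := by
  obtain ⟨u, v, w, z, ⟨h2, h3, h4⟩, h5⟩ := h1
  have hl := h.lin hr
  have inc : ∀ {u v w}, Lo 0 (ct ε p x) u v → Lo 0 (ct ε p x) v w → Co ε x u v w :=
    fun k1 k2 => h.inc hr (ct_Lo.1 k1) (ct_Lo.1 k2)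
  rcases h5 with ⟨⟨k1, k2⟩, k3, k4⟩ | ⟨⟨k1, k2⟩, k3, k4⟩
  · exact ⟨u, v, w, z, ⟨inc h2 h3, h.cyc _ _ _ (inc (hl.trans _ _ _ h2 h3) h4)⟩, ⟨k1, k2⟩, k3, k4⟩
  · exact ⟨v, w, z, u, ⟨inc h3 h4, h.cyc _ _ _ (h.cyc _ _ _
      (inc h2 (hl.trans _ _ _ h3 h4)))⟩, ⟨k3, k4⟩, k2, k1⟩

end cir

/-! ### Relabelling and measurability -/

section canon

variable {a : ℕ → ℕ} (ε : ℕ) (σ : Equiv.Perm ℕ) (p : List ℕ)

theorem u_Co (x : RS a) (u v w : ℕ) : Co ε (act σ x) (σ u) (σ v) (σ w) ↔ Co ε x u v w := by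
  have h : (σ.symm ∘ (p3 (σ u) (σ v) (σ w) : Fin (a ε) → ℕ)) = p3 u v w := by
    funext j
    show σ.symm (p3 (σ u) (σ v) (σ w) j) = p3 u v w j
    unfold p3
    split_ifs <;> exact σ.symm_apply_apply _
  show x ε (σ.symm ∘ _) = true ↔ _
  rw [h]
  exact Iff.rfl

theorem u_Lc (x : RS a) (u v : ℕ) :
    Lc ε (p.map σ) (act σ x) (σ u) (σ v) ↔ Lc ε p x u v := by
  refine xex σ fun r => and_congr ?_ (or_congr (and_congr σ.injective.eq_iff
    (not_congr σ.injective.eq_iff)) (u_Co ε σ x r u v))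
  rw [List.getElem?_map]
  cases p[0]? with
  | none => exact ⟨fun h => by simp at h, fun h => by simp at h⟩
  | some w' =>
    simp only [Option.map_some, Option.some.injEq]
    exact σ.injective.eq_iff

theorem u_Cc (y : RS (ap a)) (u v w : ℕ) : Cc (act σ y) (σ u) (σ v) (σ w) ↔ Cc y u v w :=
  or_congr (and_congr (s_Lo 0 σ y u v) (s_Lo 0 σ y v w)) (or_congr
    (and_congr (s_Lo 0 σ y v w) (s_Lo 0 σ y w u)) (and_congr (s_Lo 0 σ y w u) (s_Lo 0 σ y u v)))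

theorem p3_eq (n : ℕ) (t : Fin n → ℕ) (u v w : ℕ) :
    t = p3 (σ u) (σ v) (σ w) ↔ σ.symm ∘ t = p3 u v w := by
  have h : (p3 (σ u) (σ v) (σ w) : Fin n → ℕ) = σ ∘ (p3 u v w : Fin n → ℕ) := by
    funext j
    show p3 (σ u) (σ v) (σ w) j = σ (p3 u v w j)
    unfold p3
    split_ifs <;> rfl
  rw [h]
  constructor
  · rintro rfl
    funext j
    exact σ.symm_apply_apply _
  · intro h1
    rw [← h1]
    funext j
    exact (σ.apply_symm_apply _).symm

end canon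

open Classical in
theorem pcn2 (a : ℕ → ℕ) (ε : ℕ) : PCanon (ct (a := a) ε) (uc ε) where
  meas p := by
    have hC : ∀ u v w, Measurable fun x : RS a => Co ε x u v w := fun u v w => m_eq (m_at ε _)
    have hL : ∀ u v, Measurable fun x : RS a => Lc ε p x u v := fun u v =>
      Measurable.exists fun r => measurable_const.and (measurable_const.or (hC r u v))
    refine measurable_pi_iff.2 fun k => measurable_pi_iff.2 fun t => ?_
    match k, t with
    | 0, t => exact m_dec (hL _ _)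
    | n + 1, t => exact m_dec (measurable_const.and (m_eq (m_at n t)))
  dmeas p := by
    have hL : ∀ u v, Measurable fun y : RS (ap a) => Lo 0 y u v := fun u v => m_eq (m_at 0 _)
    have hC : ∀ u v w, Measurable fun y : RS (ap a) => Cc y u v w := fun u v w =>
      ((hL u v).and (hL v w)).or (((hL v w).and (hL w u)).or ((hL w u).and (hL u v)))
    exact measurable_pi_iff.2 fun k => measurable_pi_iff.2 fun t => m_dec
      ((measurable_const.and (Measurable.exists fun u => Measurable.exists fun v =>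
        Measurable.exists fun w => measurable_const.and (hC u v w))).or
        (measurable_const.and (m_eq (m_at (a := ap a) (k + 1) t))))
  cact σ p x := by
    funext k t
    match k, t with
    | 0, t =>
      show decide (Lc ε (p.map σ) (act σ x) (t (0 : Fin 2)) (t (1 : Fin 2))) =
        decide (Lc ε p x (σ.symm (t (0 : Fin 2))) (σ.symm (t (1 : Fin 2))))
      refine decide_eq_decide.2 ?_
      have h := u_Lc ε σ p x (σ.symm (t (0 : Fin 2))) (σ.symm (t (1 : Fin 2)))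
      rw [σ.apply_symm_apply, σ.apply_symm_apply] at h
      exact h
    | n + 1, t => rfl
  dact σ p y := by
    funext k t
    refine decide_eq_decide.2 (or_congr (and_congr Iff.rfl (xex σ fun u => xex σ fun v =>
      xex σ fun w => and_congr (p3_eq σ _ t u v w) (u_Cc σ y u v w))) Iff.rfl)

/-- The class of the codes, for circular orders. -/
def KC (a : ℕ → ℕ) (ε : ℕ) : RS a → Prop := PExp (ct ε) (uc ε) (KG (ap a) 0)

theorem ok_KC (a : ℕ → ℕ) (ε : ℕ) : Ok (KC a ε) := (ok_KG (ap a) 0).pexp (pcn2 a ε)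

/-- Circular orders: a family of noncrossing finite sets which covers the supports. -/
theorem Cyc.kc {a : ℕ → ℕ} {ε : ℕ} {p : List ℕ} {x : RS a} (h : Cyc ε x) (hε : a ε = 3)
    {F : Set (Set ℕ)} (h1 : ∀ A ∈ F, ∀ B ∈ F, A ≠ B → ¬ Cx (Co ε x) A B)
    (h2 : ∀ A ∈ F, A.Finite)
    (h3 : ∀ τ : Tp a, τ.1 ≠ ε → x τ.1 τ.2 = true → ∃ A ∈ F, ∀ i, τ.2 i ∈ A ∨ τ.2 i ∈ p) :
    KC a ε x := by
  have hr : ([0] : List ℕ)[0]? = some 0 := rfl
  have hl := h.lin hr
  refine ⟨[0], hl.kg rfl (hl.lf (p := p) (F := F) (fun A hA B hB hAB hc =>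
    h1 A hA B hB hAB (h.cx hr hc)) (fun A hA u _ v _ => (h2 A hA).subset fun c hc => hc.1) ?_),
    h.uc_ct hε hr⟩
  rintro ⟨k, t⟩ h4 h5
  match k, t with
  | 0, t => exact absurd rfl h4
  | n + 1, t =>
    have h6 : decide (n ≠ ε ∧ x n t = true) = true := h5
    rw [decide_eq_true_eq] at h6
    exact h3 ⟨n, t⟩ h6.1 h6.2

end Pool.Agent.K7.H41.NC
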