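import Pool.Agent.K7.H41.NC.Lang

set_option autoImplicit false

/-!
Linear orders with noncrossing coloured edges are tree sums.
-/

namespace Pool.Agent.K7.H41.NC

open Pool.Agent.H533R2.VO (RS RIso)
open Pool.Agent.H533R2.VS
open Pool.Agent.H533R2 (VD.Dec)
open Pool.Agent.TH425.FF
open Pool.Agent.W875.TS (p3 IsTree ts_tree ts_ctree ts_itree)

/-- The order. -/
def Lt (x : RS ar) (u v : ℕ) : Prop := Rr x 0 u v

/-- The edges of colour `k`. -/
def Ed (x : RS ar) (k u v : ℕ) : Prop := Rr x (2 * k + 1) u v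

/-- The unary predicates. -/
def Un (x : RS ar) (k u : ℕ) : Prop := Rr x (2 * k + 2) u u

/-- The edges. -/
def Ad (x : RS ar) (u v : ℕ) : Prop := ∃ k, Ed x k u v

/-- `u` is in the interval from `a` (included) to `b` (excluded). -/
def Bt (x : RS ar) (a b u : ℕ) : Prop := (a = u ∨ Lt x a u) ∧ Lt x u b

/-- A linear order with noncrossing coloured edges. -/
structure Nc (x : RS ar) : Prop where
  irr : ∀ u, ¬ Lt x u u
  trans : ∀ u v w, Lt x u v → Lt x v w → Lt x u w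
  total : ∀ u v, u ≠ v → Lt x u v ∨ Lt x v u
  sub : ∀ k a b, Ed x k a b → Lt x a b
  un : ∀ k a b, Rr x (2 * k + 2) a b → a = b
  nc : ∀ a b c d, Lt x a b → Lt x b c → Lt x c d → Ad x a c → ¬ Ad x b d
  d0 : ∀ u v w, ¬ Dd x u v w

/-- The cones. -/
def DD (x : RS ar) : P3 := fun u v w =>
  (u = v ∧ u ≠ w) ∨ ∃ a b, Ad x a b ∧ (Bt x a b u ∧ Bt x a b v) ∧ ¬ Bt x a b w

/-- The edge `(a, b)` gives the smallest interval containing `u` and `v`. -/
def Mn (x : RS ar) (u v a b : ℕ) : Prop := (Bt x a b u ∧ Bt x a b v) ∧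
  ∀ a' b', Ad x a' b' → Bt x a' b' u → Bt x a' b' v → ∀ z, Bt x a b z → Bt x a' b' z

/-- The colours of a node. -/
def Lam (x : RS ar) (k : ℕ) : P2 := fun u v => u ≠ v ∧ ∃ a b, Ed x k a b ∧ Mn x u v a b

/-- `b` is a limit of right neighbours of `a`. -/
def Lim (x : RS ar) (a b : ℕ) : Prop := Lt x a b ∧
  ∀ z, Bt x a b z → ∃ b', Lt x z b' ∧ Lt x b' b ∧ Ad x a b'

/-- Colours of limit edges. -/
def Qk (x : RS ar) (k b : ℕ) : Prop := ∃ a, Ed x k a b ∧ Lim x a b

/-- Successors. -/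
def Sc (x : RS ar) (a b : ℕ) : Prop := Lt x a b ∧ ∀ z, Lt x a z → ¬ Lt x z b

/-- Colours of edges between successors. -/
def Pk (x : RS ar) (k a : ℕ) : Prop := ∃ b, Ed x k a b ∧ Sc x a b

/-- Colours of edges between successors, and unary predicates. -/
def Wk (x : RS ar) (k a : ℕ) : Prop := (k % 2 = 0 ∧ Pk x (k / 2) a) ∨ (k % 2 ≠ 0 ∧ Un x (k / 2) a)

/-- The relations of the code. -/
def RR (x : RS ar) : ℕ → P2
  | 0 => Lt x
  | n + 1 => fun u v => (n % 2 = 0 ∧ ((u = v ∧ Qk x (n / 2) u) ∨ Lam x (n / 2) u v)) ∨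
      (n % 2 ≠ 0 ∧ u = v ∧ Wk x (n / 2) u)

/-- The code. -/
noncomputable def enc (_p : List ℕ) (x : RS ar) : RS ar := mk (DD x) (RR x)

/-- Limits, recovered. -/
def CC (y : RS ar) (a b : ℕ) : Prop := Lt y a b ∧
  ∀ z, Bt y a b z → ∃ w, Lt y z w ∧ Lt y w b ∧ Dd y a z w

/-- The edges, recovered. -/
def EE (y : RS ar) (k : ℕ) : P2 := fun a b =>
  (Rr y (4 * k + 2) a a ∧ Sc y a b) ∨
  (∃ w, (Lt y a w ∧ Lt y w b) ∧ Rr y (2 * k + 1) a w ∧ ∀ z, ¬ Dd y a w z ↔ Bt y a b z) ∨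
  (Rr y (2 * k + 1) b b ∧ CC y a b ∧ ∀ a', Lt y a' a → ¬ CC y a' b)

/-- The relations, recovered. -/
def SS (y : RS ar) : ℕ → P2
  | 0 => Lt y
  | n + 1 => fun u v => (n % 2 = 0 ∧ EE y (n / 2) u v) ∨
      (n % 2 ≠ 0 ∧ u = v ∧ Rr y (4 * (n / 2) + 4) u u)

/-- Decoding. -/
noncomputable def dec (_p : List ℕ) (y : RS ar) : RS ar := mk (fun _ _ _ => False) (SS y)

section facts

variable {x : RS ar} {u v w a b c d a' b' z k : ℕ}

theorem Nc.asymm (h : Nc x) (h1 : Lt x u v) : ¬ Lt x v u := fun h2 => h.irr u (h.trans _ _ _ h1 h2)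

theorem Nc.ne (h : Nc x) (h1 : Lt x u v) : u ≠ v := fun e => h.irr u (e ▸ h1)

theorem Nc.ad_lt (h : Nc x) (h1 : Ad x a b) : Lt x a b := by
  obtain ⟨k, hk⟩ := h1
  exact h.sub k _ _ hk

theorem Nc.tri (h : Nc x) (u v : ℕ) : Lt x u v ∨ u = v ∨ Lt x v u := by
  by_cases e : u = v
  · exact Or.inr (Or.inl e)
  · rcases h.total _ _ e with h1 | h1
    · exact Or.inl h1
    · exact Or.inr (Or.inr h1)

/-- Intervals of edges are nested or disjoint. -/
theorem Nc.lam (h : Nc x) (h1 : Ad x a b) (h2 : Ad x a' b') (hu : Bt x a b u)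
    (hu' : Bt x a' b' u) :
    (∀ z, Bt x a b z → Bt x a' b' z) ∨ ∀ z, Bt x a' b' z → Bt x a b z := by
  obtain ⟨k1, k2⟩ := hu
  obtain ⟨k3, k4⟩ := hu'
  have hab' : Lt x a b' := by
    rcases k1 with rfl | k1
    · exact k4
    · exact h.trans _ _ _ k1 k4
  have ha'b : Lt x a' b := by
    rcases k3 with rfl | k3
    · exact k2
    · exact h.trans _ _ _ k3 k2
  rcases h.tri a a' with ha | rfl | ha
  · right
    rintro z ⟨l1, l2⟩
    refine ⟨Or.inr ?_, ?_⟩
    · rcases l1 with rfl | l1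
      · exact ha
      · exact h.trans _ _ _ ha l1
    · rcases h.tri b b' with hb | rfl | hb
      · exact absurd h2 (h.nc a a' b b' ha ha'b hb h1)
      · exact l2
      · exact h.trans _ _ _ l2 hb
  · rcases h.tri b b' with hb | rfl | hb
    · left
      exact fun z ⟨l1, l2⟩ => ⟨l1, h.trans _ _ _ l2 hb⟩
    · left
      exact fun z hz => hz
    · right
      exact fun z ⟨l1, l2⟩ => ⟨l1, h.trans _ _ _ l2 hb⟩
  · left
    rintro z ⟨l1, l2⟩
    refine ⟨Or.inr ?_, ?_⟩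
    · rcases l1 with rfl | l1
      · exact ha
      · exact h.trans _ _ _ ha l1
    · rcases h.tri b b' with hb | rfl | hb
      · exact h.trans _ _ _ l2 hb
      · exact l2
      · exact absurd h1 (h.nc a' a b' b ha hab' hb h2)

theorem Nc.symm (_h : Nc x) (hd : DD x u v w) : DD x v u w := by
  rcases hd with ⟨rfl, h1⟩ | ⟨a, b, h1, ⟨h2, h3⟩, h4⟩
  · exact Or.inl ⟨rfl, h1⟩
  · exact Or.inr ⟨a, b, h1, ⟨h3, h2⟩, h4⟩

theorem Nc.irrD (_h : Nc x) : ¬ DD x u v u := by
  rintro (⟨-, h1⟩ | ⟨a, b, -, ⟨h2, -⟩, h4⟩)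
  · exact h1 rfl
  · exact h4 h2

theorem Nc.c2 (h : Nc x) (hd : DD x u v w) : ¬ DD x u w v := by
  rintro (⟨rfl, h1⟩ | ⟨a, b, h1, ⟨h2, h3⟩, h4⟩)
  · rcases hd with ⟨rfl, h2⟩ | ⟨a, b, -, ⟨h2, -⟩, h4⟩
    · exact h2 rfl
    · exact h4 h2
  · rcases hd with ⟨rfl, -⟩ | ⟨a', b', k1, ⟨k2, k3⟩, k4⟩
    · exact h4 h2
    · rcases h.lam h1 k1 h2 k2 with h5 | h5
      · exact k4 (h5 _ h3)
      · exact h4 (h5 _ k3)

theorem Nc.c3 (_h : Nc x) (hd : DD x u v w) (z : ℕ) : DD x u v z ∨ DD x z v w := by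
  rcases hd with ⟨rfl, h1⟩ | ⟨a, b, h1, ⟨h2, h3⟩, h4⟩
  · by_cases hz : u = z
    · subst hz
      exact Or.inr (Or.inl ⟨rfl, h1⟩)
    · exact Or.inl (Or.inl ⟨rfl, hz⟩)
  · by_cases hz : Bt x a b z
    · exact Or.inr (Or.inr ⟨a, b, h1, ⟨hz, h3⟩, h4⟩)
    · exact Or.inl (Or.inr ⟨a, b, h1, ⟨h2, h3⟩, hz⟩)

/-- Intervals are convex. -/
theorem Nc.cvx (h : Nc x) (hu : Bt x a b u) (hv : Bt x a b v) (hw : ¬ Bt x a b w)
    (huw : Lt x u w) : Lt x v w := by
  by_contra hc
  have h1 : w = v ∨ Lt x w v := by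
    rcases h.tri v w with h2 | rfl | h2
    · exact absurd h2 hc
    · exact Or.inl rfl
    · exact Or.inr h2
  refine hw ⟨Or.inr ?_, ?_⟩
  · rcases hu.1 with rfl | h2
    · exact huw
    · exact h.trans _ _ _ h2 huw
  · rcases h1 with rfl | h1
    · exact hv.2
    · exact h.trans _ _ _ h1 hv.2

theorem Nc.cvx' (h : Nc x) (hu : Bt x a b u) (hv : Bt x a b v) (hw : ¬ Bt x a b w)
    (huw : Lt x w u) : Lt x w v := by
  rcases h.tri w v with h1 | rfl | h1
  · exact h1
  · exact absurd hv hw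
  · exact absurd huw (h.asymm (h.cvx hv hu hw h1))

/-- The order: the first entry. -/
theorem Nc.lt1 (h : Nc x) (hd : DD x u c v) : Lt x c v ↔ Lt x u v := by
  rcases hd with ⟨rfl, -⟩ | ⟨a, b, h1, ⟨h2, h3⟩, h4⟩
  · rfl
  · exact ⟨h.cvx h3 h2 h4, h.cvx h2 h3 h4⟩

theorem Nc.lt2 (h : Nc x) (hd : DD x v c u) : Lt x u c ↔ Lt x u v := by
  rcases hd with ⟨rfl, -⟩ | ⟨a, b, h1, ⟨h2, h3⟩, h4⟩
  · rfl
  · exact ⟨h.cvx' h3 h2 h4, h.cvx' h2 h3 h4⟩

theorem Lam_symm (hL : Lam x k u v) : Lam x k v u := by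
  obtain ⟨h1, a, b, h2, ⟨h3, h4⟩, h5⟩ := hL
  exact ⟨h1.symm, a, b, h2, ⟨h4, h3⟩, fun a' b' k1 k2 k3 => h5 a' b' k1 k3 k2⟩

/-- If the intervals containing `u`, `w` and those containing `v`, `w` are the same, then the
colours are the same. -/
theorem Lam_congr (hvw : v ≠ w) (h1 : ∀ a b, Ad x a b → Bt x a b w → (Bt x a b u ↔ Bt x a b v))
    (hL : Lam x k u w) : Lam x k v w := by
  obtain ⟨h2, a, b, h3, ⟨h4, h5⟩, h6⟩ := hL
  exact ⟨hvw, a, b, h3, ⟨(h1 a b ⟨k, h3⟩ h5).1 h4, h5⟩,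
    fun a' b' k1 k2 k3 => h6 a' b' k1 ((h1 a' b' k1 k3).2 k2) k3⟩

/-- The colours of the nodes: the first entry. -/
theorem Nc.lam1 (h : Nc x) (hd : DD x u c v) (hL : Lam x k u v) : Lam x k c v := by
  have hcv : c ≠ v := by
    rintro rfl
    exact h.irrD (h.symm hd)
  rcases hd with ⟨rfl, -⟩ | ⟨a, b, h1, ⟨h2, h3⟩, h4⟩
  · exact hL
  · refine Lam_congr hcv (fun a' b' k1 k2 => ⟨fun k3 => ?_, fun k3 => ?_⟩) hL
    · rcases h.lam h1 k1 h2 k3 with h5 | h5
      · exact h5 _ h3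
      · exact absurd (h5 _ k2) h4
    · rcases h.lam h1 k1 h3 k3 with h5 | h5
      · exact h5 _ h2
      · exact absurd (h5 _ k2) h4

theorem Nc.lam2 (h : Nc x) (hd : DD x v c u) (hL : Lam x k u v) : Lam x k u c :=
  Lam_symm (h.lam1 hd (Lam_symm hL))

/-- Finite sets have a largest element. -/
theorem Nc.top (h : Nc x) {e : ℕ → ℕ} (he : Function.Injective e) (F : Finset ℕ)
    (hF : F.Nonempty) : ∃ m ∈ F, ∀ n ∈ F, n ≠ m → Lt x (e n) (e m) := by
  induction hF using Finset.Nonempty.cons_induction with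
  | singleton a =>
    exact ⟨a, Finset.mem_singleton_self a, fun n hn h1 => absurd (Finset.mem_singleton.1 hn) h1⟩
  | cons a s ha hs ih =>
    obtain ⟨m, hm, h1⟩ := ih
    have hne : a ≠ m := fun e0 => ha (e0 ▸ hm)
    rcases h.total _ _ (fun e0 => hne (he e0)) with h2 | h2
    · refine ⟨m, Finset.mem_cons_of_mem hm, fun n hn h3 => ?_⟩
      rcases Finset.mem_cons.1 hn with rfl | hn
      · exact h2
      · exact h1 n hn h3
    · refine ⟨a, Finset.mem_cons_self a s, fun n hn h3 => ?_⟩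
      rcases Finset.mem_cons.1 hn with rfl | hn
      · exact absurd rfl h3
      · by_cases h4 : n = m
        · rw [h4]; exact h2
        · exact h.trans _ _ _ (h1 n hn h4) h2

end facts

/-! ### The code is a tree sum -/

/-- Criterion for modules: binary relations. -/
theorem mod2 {R : P2} {Q : P3} (irr : ∀ u v, ¬ Q u v u)
    (h1 : ∀ u b v, Q u b v → (R b v ↔ R u v)) (h2 : ∀ u b v, Q v b u → (R u b ↔ R u v))
    (t : Fin 2 → ℕ) (k l : Fin 2) (b : ℕ) (h : Q (t k) b (t l)) :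
    R (Function.update t k b 0) (Function.update t k b 1) ↔ R (t 0) (t 1) := by
  have hk : k ≠ l := fun e => irr _ _ (e ▸ h)
  have h01 : ∀ k : Fin 2, k = 0 ∨ k = 1 := by decide
  rcases h01 k with rfl | rfl <;> rcases h01 l with rfl | rfl
  · exact absurd rfl hk
  · rw [Function.update_self, Function.update_of_ne (by decide)]
    exact h1 _ _ _ h
  · rw [Function.update_self, Function.update_of_ne (by decide)]
    exact h2 _ _ _ h
  · exact absurd rfl hk

section tree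

variable {x : RS ar}

theorem Nc.rr1 (h : Nc x) (n : ℕ) {u c v : ℕ} (hd : DD x u c v) : RR x n c v ↔ RR x n u v := by
  have huv : u ≠ v := by
    rintro rfl
    exact h.irrD hd
  have hcv : c ≠ v := by
    rintro rfl
    exact h.irrD (h.symm hd)
  cases n with
  | zero => exact h.lt1 hd
  | succ n =>
    show (_ ∧ ((c = v ∧ _) ∨ _)) ∨ (_ ∧ c = v ∧ _) ↔ (_ ∧ ((u = v ∧ _) ∨ _)) ∨ (_ ∧ u = v ∧ _)
    simp only [huv, hcv, false_and, false_or, and_false, or_false]
    exact and_congr_right fun _ => ⟨h.lam1 (h.symm hd), h.lam1 hd⟩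

theorem Nc.rr2 (h : Nc x) (n : ℕ) {u c v : ℕ} (hd : DD x v c u) : RR x n u c ↔ RR x n u v := by
  have huv : u ≠ v := by
    rintro rfl
    exact h.irrD hd
  have hcv : u ≠ c := by
    rintro rfl
    exact h.irrD (h.symm hd)
  cases n with
  | zero => exact h.lt2 hd
  | succ n =>
    show (_ ∧ ((u = c ∧ _) ∨ _)) ∨ (_ ∧ u = c ∧ _) ↔ (_ ∧ ((u = v ∧ _) ∨ _)) ∨ (_ ∧ u = v ∧ _)
    simp only [huv, hcv, false_and, false_or, and_false, or_false]
    exact and_congr_right fun _ => ⟨h.lam2 (h.symm hd), h.lam2 hd⟩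

theorem Nc.isTree (h : Nc x) (p : List ℕ) : IsTree 0 (DecG : RS ar → Prop) (enc p x) := by
  classical
  have hD : ∀ u v w, (enc p x) 0 (p3 u v w) = true ↔ DD x u v w := fun u v w => mk_D u v w
  have hD' : ∀ u v w, (enc p x) 0 (p3 u v w) = false ↔ ¬ DD x u v w := fun u v w => by
    rw [← hD, Bool.not_eq_true]
  refine ⟨fun u w huw => (hD _ _ _).2 (Or.inl ⟨rfl, huw⟩), fun u v => (hD' _ _ _).2 h.irrD,
    fun u v w h1 => (hD _ _ _).2 (h.symm ((hD _ _ _).1 h1)),
    fun u v w h1 => (hD' _ _ _).2 (h.c2 ((hD _ _ _).1 h1)),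
    fun u v w h1 z => (h.c3 ((hD _ _ _).1 h1) z).imp (hD _ _ _).2 (hD _ _ _).2, ?_, ?_⟩
  · intro i hi t k l b hd
    rw [hD] at hd
    rw [Bool.eq_iff_iff]
    match i, t, k, l with
    | 0, t, k, l => exact absurd rfl hi
    | n + 1, t, k, l =>
      have h1 := mod2 (R := RR x n) (Q := DD x) (fun u v => h.irrD)
        (fun u b v hq => h.rr1 n hq) (fun u b v hq => h.rr2 n hq) t k l b hd
      show decide _ = true ↔ decide _ = true
      rw [decide_eq_true_eq, decide_eq_true_eq]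
      exact h1
  · intro e he hs _
    have hs' : ∀ l m n, l ≠ m → l ≠ n → m ≠ n → ¬ DD x (e l) (e m) (e n) :=
      fun l m n h1 h2 h3 => (hD' _ _ _).1 (hs l m n h1 h2 h3)
    refine ⟨fun i hi t => ?_, ?_⟩
    · refine if_neg ?_
      rintro ⟨h1, j, l, h2⟩
      match i, t, j, l with
      | 0, t, j, l => exact h1 rfl
      | n + 1, t, j, l => exact hi rfl
    · intro F hF
      have hne : F.Nonempty := by
        rw [← Finset.card_pos]
        rcases hF with h1 | h1 <;> omega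
      obtain ⟨m, hmF, hmt⟩ := h.top he F hne
      refine ⟨F.erase m, Finset.erase_subset _ _, ?_, ?_, ?_⟩
      · rw [Finset.card_erase_of_mem hmF]
        rcases hF with h1 | h1 <;> omega
      · rw [Finset.card_erase_of_mem hmF]
        rcases hF with h1 | h1 <;> omega
      · intro u hu v hv w hw hwm
        have hwm' : w = m := by
          by_contra hc
          exact hwm (Finset.mem_erase.2 ⟨hc, hw⟩)
        subst hwm'
        obtain ⟨hu1, hu2⟩ := Finset.mem_erase.1 hu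
        obtain ⟨hv1, hv2⟩ := Finset.mem_erase.1 hv
        -- the relations with the largest element
        have hin : ∀ u v, u ≠ w → v ≠ w → ∀ a b, Ad x a b → Bt x a b (e w) →
            (Bt x a b (e u) → Bt x a b (e v)) := by
          intro u v hu hv a b k1 k2 k3
          by_cases huv : u = v
          · rw [← huv]; exact k3
          · by_contra k4
            exact hs' w u v (Ne.symm hu) (Ne.symm hv) huv (Or.inr ⟨a, b, k1, ⟨k2, k3⟩, k4⟩)
        have hlam : ∀ k u v, u ≠ w → v ≠ w → Lam x k (e u) (e w) → Lam x k (e v) (e w) :=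
          fun k u v hu hv => Lam_congr (fun e0 => hv (he e0))
            fun a b k1 k2 => ⟨hin u v hu hv a b k1 k2, hin v u hv hu a b k1 k2⟩
        have key1 : ∀ n, RR x n (e u) (e w) ↔ RR x n (e v) (e w) := by
          intro n
          have e1 : e u ≠ e w := fun e0 => hu1 (he e0)
          have e2 : e v ≠ e w := fun e0 => hv1 (he e0)
          cases n with
          | zero => exact iff_of_true (hmt u hu2 hu1) (hmt v hv2 hv1)
          | succ n =>
            show (_ ∧ ((e u = e w ∧ _) ∨ _)) ∨ (_ ∧ e u = e w ∧ _) ↔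
              (_ ∧ ((e v = e w ∧ _) ∨ _)) ∨ (_ ∧ e v = e w ∧ _)
            simp only [e1, e2, false_and, false_or, and_false, or_false]
            exact and_congr_right fun _ => ⟨hlam _ u v hu1 hv1, hlam _ v u hv1 hu1⟩
        have key2 : ∀ n, RR x n (e w) (e u) ↔ RR x n (e w) (e v) := by
          intro n
          have e1 : e w ≠ e u := fun e0 => hu1 (he e0.symm)
          have e2 : e w ≠ e v := fun e0 => hv1 (he e0.symm)
          cases n with
          | zero => exact iff_of_false (h.asymm (hmt u hu2 hu1)) (h.asymm (hmt v hv2 hv1))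
          | succ n =>
            show (_ ∧ ((e w = e u ∧ _) ∨ _)) ∨ (_ ∧ e w = e u ∧ _) ↔
              (_ ∧ ((e w = e v ∧ _) ∨ _)) ∨ (_ ∧ e w = e v ∧ _)
            simp only [e1, e2, false_and, false_or, and_false, or_false]
            exact and_congr_right fun _ => ⟨fun h1 => Lam_symm (hlam _ u v hu1 hv1 (Lam_symm h1)),
              fun h1 => Lam_symm (hlam _ v u hv1 hu1 (Lam_symm h1))⟩
        intro i
        match i with
        | 0 => exact ⟨rfl, rfl⟩
        | n + 1 =>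
          have key : ∀ a b, a ≠ b → (if ar (n + 1) = 2 then (if (n + 1 ≠ 0 ∧
              ∃ j l : Fin (ar (n + 1)), (p2 a b : Fin (ar (n + 1)) → ℕ) j ≠
                (p2 a b : Fin (ar (n + 1)) → ℕ) l)
              then (enc p x) (n + 1) (e ∘ p2 a b) else false) else false) =
              decide (RR x n (e a) (e b)) := by
            intro a b hab
            rw [if_pos (show ar (n + 1) = 2 from rfl),
              if_pos ⟨Nat.succ_ne_zero n, (0 : Fin 2), (1 : Fin 2), hab⟩]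
            rfl
          constructor
          · refine (key _ _ hu1).trans (Eq.trans ?_ (key _ _ hv1).symm)
            exact decide_eq_decide.2 (key1 n)
          · refine (key _ _ (Ne.symm hu1)).trans (Eq.trans ?_ (key _ _ (Ne.symm hv1)).symm)
            exact decide_eq_decide.2 (key2 n)

end tree

end Pool.Agent.K7.H41.NC
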