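import Pool.Agent.K7.H41.NC.Cir
import Pool.Agent.R617.VT.Trans
import Pool.Agent.W889.FO.St0
import Pool.Agent.H533R2.VS.All2

set_option autoImplicit false

/-!
From Borel classes of relational structures to first-order theories in arbitrary countable
languages.
-/

namespace Pool.Agent.K7.H41.NC

open FirstOrder FirstOrder.Language
open Pool.Agent.H533R2.VO (RS RIso Dich)
open Pool.Agent.H533R2.VS
open Pool.Agent.W889.FO
open Pool.Agent.W889.FO.St0 (RF LF W D gr fun_iff ax_theory ax_W iso_down iso_up ex countable_LF)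
open Pool.Agent.R617.VT (ar_e dc cd Nrm Md md_meas md_iso rel_dc vaught_of)

/-- The reduction to relational languages, for one theory. -/
theorem reduceT (L : FirstOrder.Language.{0, 0}) (T : L.Theory)
    (hV : ∀ T' : (LF L).Theory, (∀ S : (LF L).Structure ℕ, @Theory.Model (LF L) ℕ S T' →
      W S ∧ @Theory.Model L ℕ (D S) T) → Vaught (LF L) T') : VaughtF L T := by
  obtain ⟨T', hT'⟩ := ax_theory T
  rcases hV T' (fun S hS => (hT' S).1 hS) with ⟨g, hg⟩ | ⟨f, hf1, hf2, hf3⟩
  · left
    refine ⟨fun n => D (g n), fun M hM => ?_⟩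
    obtain ⟨S, hS, hi⟩ := ex M
    obtain ⟨n, hn⟩ := hg S ((hT' S).2 ⟨hS, hi.symm.model hM⟩)
    obtain ⟨T'', hT''⟩ := ax_W L
    have hgn : W (g n) := (hT'' (g n)).1 (SIso.model hn ((hT'' S).2 hS))
    exact ⟨n, hi.symm.trans (iso_down hS hgn hn)⟩
  · right
    have hW : ∀ x, W (f x) := fun x => ((hT' _).1 (hf1 x)).1
    refine ⟨fun x => D (f x), fun x => ((hT' _).1 (hf1 x)).2,
      fun x y hxy => hf2 x y (iso_up (hW x) (hW y) hxy), fun n R a => hf3 n (RF.rel R) a,
      fun n F a b => ?_⟩
    have : {x : ℕ → Bool | @FirstOrder.Language.Structure.funMap L ℕ (D (f x)) n F a = b} =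
        {x | @Structure.RelMap (LF L) ℕ (f x) _ (RF.fn F) (Fin.snoc (α := fun _ => ℕ) a b)} := by
      ext x
      exact fun_iff (hW x) F a b
    rw [this]
    exact (hf3 _ (RF.fn F) _).isOpen

/-- The dichotomy for a theory whose models have codes in a class with the three properties. -/
theorem fo_of {L : FirstOrder.Language.{0, 0}} (hL : Countable L.Symbols) (T : L.Theory)
    (h : ∀ (e : (Σ n, (LF L).Relations n) → ℕ) (he : Function.Injective e),
      ∃ V : RS (R617.VT.ar e) → Prop, VCu V ∧ ∀ x : RS (R617.VT.ar e), Nrm x →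
        W (dc he x) → @Theory.Model L ℕ (D (dc he x)) T → V x) : VaughtF L T := by
  refine reduceT L T fun T' hT' => ?_
  haveI : Countable (Σ n, (LF L).Relations n) := countable_LF
  obtain ⟨e, he⟩ := exists_injective_nat (Σ n, (LF L).Relations n)
  obtain ⟨V, hV, h1⟩ := h e he
  refine vaught_of he (vs_plain _ V hV (Md he T') (md_meas he T') (fun x y hxy =>
    ⟨md_iso he hxy, md_iso he (R617.VT.riso_symm hxy)⟩) fun x hx => ?_)
  obtain ⟨h2, h3⟩ := hT' _ hx.2
  exact h1 x hx.1 h2 h3

section sup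

variable {L : FirstOrder.Language.{0, 0}} {e : (Σ n, (LF L).Relations n) → ℕ}
  (he : Function.Injective e)

/-- The set of the entries of a tuple in a relation other than `Q`, or of the arguments and the
value of a function. -/
def Basic (S : L.Structure ℕ) (Q : Σ n, L.Relations n) (X : Set ℕ) : Prop :=
  (∃ R : Σ n, L.Relations n, R ≠ Q ∧ ∃ t : Fin R.1 → ℕ,
    @Structure.RelMap L ℕ S R.1 R.2 t ∧ X = Set.range t) ∨
  ∃ (F : Σ n, L.Functions n) (t : Fin F.1 → ℕ),
    X = insert (@Structure.funMap L ℕ S F.1 F.2 t) (Set.range t)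

/-- The supports of the code. -/
theorem sup_basic {x : RS (R617.VT.ar e)} (hx : Nrm x) (hW : W (dc he x)) {Q : Σ n, L.Relations n}
    {τ : Tp (R617.VT.ar e)} (h1 : τ.1 ≠ e ⟨Q.1, RF.rel Q.2⟩) (h2 : x τ.1 τ.2 = true) :
    Basic (D (dc he x)) Q (Set.range τ.2) := by
  obtain ⟨k, t⟩ := τ
  have h1' : k ≠ e ⟨Q.1, RF.rel Q.2⟩ := h1
  have h2' : x k t = true := h2
  show Basic (D (dc he x)) Q (Set.range t)
  by_cases hk : ∃ p, e p = k
  · obtain ⟨⟨n, P⟩, rfl⟩ := hk
    have hn := ar_e he ⟨n, P⟩
    have hr : @Structure.RelMap (LF L) ℕ (dc he x) n P (fun i => t (Fin.cast hn.symm i)) := by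
      rw [rel_dc]
      exact h2'
    have hrange : Set.range t = Set.range (fun i : Fin n => t (Fin.cast hn.symm i)) := by
      ext u
      constructor
      · rintro ⟨i, rfl⟩
        exact ⟨Fin.cast hn i, rfl⟩
      · rintro ⟨i, rfl⟩
        exact ⟨_, rfl⟩
    rw [hrange]
    generalize (fun i : Fin n => t (Fin.cast hn.symm i)) = v at hr
    cases P with
    | rel R =>
      refine Or.inl ⟨⟨n, R⟩, ?_, v, hr, rfl⟩
      rintro rfl
      exact h1' rfl
    | @fn m F =>
      refine Or.inr ⟨⟨m, F⟩, fun i => v i.castSucc, ?_⟩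
      have e1 : v = Fin.snoc (α := fun _ => ℕ) (fun i => v i.castSucc) (v (Fin.last m)) := by
        funext j
        refine Fin.lastCases ?_ (fun m' => ?_) j
        · simp only [Fin.snoc_last]
        · simp only [Fin.snoc_castSucc]
      have h3 : gr (dc he x) F (fun i => v i.castSucc) (v (Fin.last m)) := by
        show @Structure.RelMap (LF L) ℕ (dc he x) _ (RF.fn F) _
        rw [← e1]
        exact hr
      have h4 := (fun_iff hW F _ _).2 h3
      rw [h4]
      ext u
      constructor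
      · rintro ⟨i, rfl⟩
        refine Fin.lastCases ?_ (fun m' => ?_) i
        · exact Or.inl rfl
        · exact Or.inr ⟨m', rfl⟩
      · rintro (rfl | ⟨i, rfl⟩)
        · exact ⟨_, rfl⟩
        · exact ⟨_, rfl⟩
  · rw [hx k hk] at h2'
    exact absurd h2' (by decide)

end sup

end Pool.Agent.K7.H41.NC
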