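import Pool.Agent.TH425.FF.Cun
import Pool.Agent.W875.TS.COI

set_option autoImplicit false

/-!
One ternary and countably many binary relations: reading, building, measurability and relabelling.
-/

namespace Pool.Agent.K7.H41.NC

open Pool.Agent.H533R2.VO (RS RIso)
open Pool.Agent.H533R2.VS
open Pool.Agent.TH425.FF
open Pool.Agent.W875.TS (p3)

/-- Arities: one ternary relation, then binary relations. -/
def ar : ℕ → ℕ
  | 0 => 3
  | _ + 1 => 2

theorem ar_pos (i : ℕ) : 0 < ar i := by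
  match i with
  | 0 => exact Nat.succ_pos 2
  | _ + 1 => exact Nat.succ_pos 1

abbrev P1 : Type := ℕ → Prop
abbrev P2 : Type := ℕ → ℕ → Prop
abbrev P3 : Type := ℕ → ℕ → ℕ → Prop

/-- The ternary relation. -/
def Dd (x : RS ar) (u v w : ℕ) : Prop := x 0 (p3 u v w) = true

/-- The binary relations. -/
def Rr (x : RS ar) (n u v : ℕ) : Prop := x (n + 1) (p2 u v) = true

open Classical in
/-- The structure with given relations. -/
noncomputable def mk (D : P3) (R : ℕ → P2) : RS ar := fun i =>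
  match i with
  | 0 => fun t => decide (D (t (0 : Fin 3)) (t (1 : Fin 3)) (t (2 : Fin 3)))
  | n + 1 => fun t => decide (R n (t (0 : Fin 2)) (t (1 : Fin 2)))

section mk

variable {D : P3} {R : ℕ → P2}

open Classical in
theorem mk_D (u v w : ℕ) : Dd (mk D R) u v w ↔ D u v w := by
  show decide _ = true ↔ _
  rw [decide_eq_true_eq]
  exact Iff.rfl

open Classical in
theorem mk_R (n u v : ℕ) : Rr (mk D R) n u v ↔ R n u v := by
  show decide _ = true ↔ _
  rw [decide_eq_true_eq]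
  exact Iff.rfl

end mk

theorem eta2 (t : Fin 2 → ℕ) : (p2 (t 0) (t 1) : Fin 2 → ℕ) = t := by
  funext j
  match j with
  | 0 => rfl
  | 1 => rfl

theorem eta3 (t : Fin 3 → ℕ) : (p3 (t 0) (t 1) (t 2) : Fin 3 → ℕ) = t := by
  funext j
  match j with
  | 0 => rfl
  | 1 => rfl
  | 2 => rfl

theorem ext {x y : RS ar} (h0 : ∀ u v w, Dd x u v w ↔ Dd y u v w)
    (h1 : ∀ n u v, Rr x n u v ↔ Rr y n u v) : x = y := by
  funext i t
  rw [Bool.eq_iff_iff]
  match i, t with
  | 0, t =>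
    have h := h0 (t (0 : Fin 3)) (t (1 : Fin 3)) (t (2 : Fin 3))
    unfold Dd at h
    rw [show (p3 (t (0 : Fin 3)) (t (1 : Fin 3)) (t (2 : Fin 3)) : Fin (ar 0) → ℕ) = t from eta3 t]
      at h
    exact h
  | n + 1, t =>
    have h := h1 n (t (0 : Fin 2)) (t (1 : Fin 2))
    unfold Rr at h
    rw [show (p2 (t (0 : Fin 2)) (t (1 : Fin 2)) : Fin (ar (n + 1)) → ℕ) = t from eta2 t] at h
    exact h

section act

variable (σ : Equiv.Perm ℕ) (x : RS ar)

theorem act_D (u v w : ℕ) : Dd (act σ x) (σ u) (σ v) (σ w) ↔ Dd x u v w := by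
  have h : (σ.symm ∘ (p3 (σ u) (σ v) (σ w) : Fin (ar 0) → ℕ)) = p3 u v w := by
    funext j
    show σ.symm (p3 (σ u) (σ v) (σ w) j) = p3 u v w j
    unfold p3
    split_ifs <;> exact σ.symm_apply_apply _
  show x 0 (σ.symm ∘ _) = true ↔ _
  rw [h]
  exact Iff.rfl

theorem p2_act (u v : ℕ) (n : ℕ) : (σ.symm ∘ (p2 (σ u) (σ v) : Fin n → ℕ)) = p2 u v := by
  funext j
  show σ.symm (p2 (σ u) (σ v) j) = p2 u v j
  unfold p2
  split_ifs <;> exact σ.symm_apply_apply _

theorem act_R (n u v : ℕ) : Rr (act σ x) n (σ u) (σ v) ↔ Rr x n u v := by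
  show x (n + 1) (σ.symm ∘ _) = true ↔ _
  rw [p2_act]
  exact Iff.rfl

theorem act_mk {D D' : P3} {R R' : ℕ → P2} (h0 : ∀ u v w, D' (σ u) (σ v) (σ w) ↔ D u v w)
    (h1 : ∀ n u v, R' n (σ u) (σ v) ↔ R n u v) : mk D' R' = act σ (mk D R) := by
  refine ext (fun u v w => ?_) fun n u v => ?_
  · obtain ⟨u, rfl⟩ := σ.surjective u
    obtain ⟨v, rfl⟩ := σ.surjective v
    obtain ⟨w, rfl⟩ := σ.surjective w
    rw [mk_D, act_D, mk_D, h0]
  · obtain ⟨u, rfl⟩ := σ.surjective u
    obtain ⟨v, rfl⟩ := σ.surjective v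
    rw [mk_R, act_R, mk_R, h1]

end act

section meas

theorem m_dec {X : Type} [MeasurableSpace X] {p : X → Prop} [∀ x, Decidable (p x)]
    (hp : Measurable p) : Measurable fun x => decide (p x) := by
  have h : (fun x => decide (p x)) = (fun x => if p x then true else false) := by
    funext x
    by_cases h : p x <;> simp [h]
  rw [h]
  exact Measurable.ite (measurableSet_setOfPred.2 hp) measurable_const measurable_const

theorem m_eq {X : Type} [MeasurableSpace X] {f : X → Bool} (hf : Measurable f) :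
    Measurable fun x => f x = true :=
  measurableSet_setOfPred.1 (hf (measurableSet_singleton true))

theorem m_at {a : ℕ → ℕ} (i : ℕ) (t : Fin (a i) → ℕ) : Measurable fun x : RS a => x i t :=
  (measurable_pi_apply t).comp (measurable_pi_apply i)

theorem m_D (u v w : ℕ) : Measurable fun x : RS ar => Dd x u v w := m_eq (m_at 0 _)
theorem m_R (n u v : ℕ) : Measurable fun x : RS ar => Rr x n u v := m_eq (m_at (n + 1) _)

open Classical in
theorem m_mk {X : Type} [MeasurableSpace X] {D : X → P3} {R : X → ℕ → P2}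
    (h0 : ∀ u v w, Measurable fun x => D x u v w) (h1 : ∀ n u v, Measurable fun x => R x n u v) :
    Measurable fun x => mk (D x) (R x) := by
  refine measurable_pi_iff.2 fun i => measurable_pi_iff.2 fun t => ?_
  match i, t with
  | 0, t => exact m_dec (h0 _ _ _)
  | n + 1, t => exact m_dec (h1 _ _ _)

end meas

theorem eall (σ : Equiv.Perm ℕ) {P P' : ℕ → Prop} (h : ∀ a, P' (σ a) ↔ P a) :
    (∀ a, P' a) ↔ ∀ a, P a :=
  ⟨fun h1 a => (h a).1 (h1 _), fun h1 a => by
    obtain ⟨b, rfl⟩ := σ.surjective a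
    exact (h b).2 (h1 b)⟩

theorem eex (σ : Equiv.Perm ℕ) {P P' : ℕ → Prop} (h : ∀ a, P' (σ a) ↔ P a) :
    (∃ a, P' a) ↔ ∃ a, P a :=
  ⟨fun ⟨a, ha⟩ => by
    obtain ⟨b, rfl⟩ := σ.surjective a
    exact ⟨b, (h b).1 ha⟩, fun ⟨a, ha⟩ => ⟨σ a, (h a).2 ha⟩⟩

end Pool.Agent.K7.H41.NC
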